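import Pool.Agent.W767.Sd.Solid

set_option autoImplicit false

/-!
# Solid functions: the induction step
-/

open MeasureTheory Set Filter Topology ENNReal NNReal Metric

namespace Pool.Agent.W767.Sd

open Pool.Agent.H742R2.Kk Pool.Agent.W767.Kc

/-- The pointwise estimate. -/
theorem point_sum {m : ℕ} (hm : 1 ≤ m) {ρ : ℝ} (hρ0 : 0 < ρ) (hρ1 : ρ ≤ 1) {I0 : ℕ}
    (hI0 : 1 ≤ 2 ^ I0 * ρ) {F : E (m + 2) → ℝ≥0∞} (hF : Measurable F) (hS : SolidE F)
    {e b : E (m + 2)} (he : ‖e‖ = 1) (he' : tl e ≠ 0) (he0 : e 0 ≠ 0)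
    {M : ℕ → E (m + 1) → ℝ≥0∞}
    (hM : ∀ i, ∀ ω c : E (m + 1), ‖ω‖ = 1 → ((ENNReal.ofReal ρ ^ m)⁻¹ * ∫⁻ y in cyl ρ 1 ω c,
      gA (sig ρ i) F y ^ (((m:ℝ) + 2) / (m + 1))) ^ (m + 1) ≤ M i ω) :
    ((ENNReal.ofReal ρ ^ (m + 1))⁻¹ * ∫⁻ y in cyl ρ 1 e b, F y) ^ (m + 2) ≤
      ((I0 + 2 : ℕ) : ℝ≥0∞) ^ (m + 1) * ∑ i ∈ Finset.range (I0 + 2),
        cS m * ENNReal.ofReal (Kr m ρ (sig ρ i) ‖tl e‖ (e 0)) * M i (‖tl e‖⁻¹ • tl e) := by
  have hr0 : 0 < ‖tl e‖ := norm_pos_iff.2 he'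
  have hω1 : ‖‖tl e‖⁻¹ • tl e‖ = 1 := by
    rw [norm_smul, norm_inv, norm_norm, inv_mul_cancel₀ hr0.ne']
  have hTm : MeasurableSet (cyl ρ 1 e b) := (isClosed_cyl ρ 1 e b).measurableSet
  have hsm : ∀ i, MeasurableSet (cyl ρ 1 e b ∩ {y | y 0 ∈ slab ρ I0 i}) := fun i =>
    hTm.inter (measurable_apply 0 (measurableSet_slab ρ I0 i))
  have h1 : ∫⁻ y in cyl ρ 1 e b, F y ≤ ∑ i ∈ Finset.range (I0 + 2),
      ∫⁻ y in cyl ρ 1 e b ∩ {y | y 0 ∈ slab ρ I0 i}, F y := by
    rw [← lintegral_indicator hTm]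
    simp_rw [← lintegral_indicator (hsm _)]
    rw [← lintegral_finsetSum _ (fun i _ => hF.indicator (hsm i))]
    apply lintegral_mono
    intro y
    by_cases hy : y ∈ cyl ρ 1 e b
    · obtain ⟨i, hi, hyi⟩ := slab_cover (ρ := ρ) I0 (y 0)
      have hmem : y ∈ cyl ρ 1 e b ∩ {y | y 0 ∈ slab ρ I0 i} := ⟨hy, hyi⟩
      rw [indicator_of_mem hy]
      calc F y = (cyl ρ 1 e b ∩ {y | y 0 ∈ slab ρ I0 i}).indicator F y :=
            (indicator_of_mem hmem _).symm
        _ ≤ _ := Finset.single_le_sum (f := fun i =>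
            (cyl ρ 1 e b ∩ {y | y 0 ∈ slab ρ I0 i}).indicator F y) (fun _ _ => zero_le) hi
    · rw [indicator_of_notMem hy]; exact zero_le
  calc ((ENNReal.ofReal ρ ^ (m + 1))⁻¹ * ∫⁻ y in cyl ρ 1 e b, F y) ^ (m + 2)
      ≤ (∑ i ∈ Finset.range (I0 + 2), (ENNReal.ofReal ρ ^ (m + 1))⁻¹ *
          ∫⁻ y in cyl ρ 1 e b ∩ {y | y 0 ∈ slab ρ I0 i}, F y) ^ (m + 2) := by
        rw [← Finset.mul_sum]
        gcongr
    _ ≤ ((Finset.range (I0 + 2)).card : ℝ≥0∞) ^ (m + 2 - 1) * ∑ i ∈ Finset.range (I0 + 2),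
          ((ENNReal.ofReal ρ ^ (m + 1))⁻¹ *
          ∫⁻ y in cyl ρ 1 e b ∩ {y | y 0 ∈ slab ρ I0 i}, F y) ^ (m + 2) :=
        sum_pow_le _ _ (by omega)
    _ ≤ _ := by
        rw [Finset.card_range]
        have e1 : m + 2 - 1 = m + 1 := by omega
        rw [e1]
        gcongr with i hi
        obtain ⟨hR, hfib⟩ := fib_bound hm hρ0 hρ1 hI0 hF hS he he' hi
        exact piece hρ0 hρ1 (le_sig hρ0 i) hF he he' he0 (measurableSet_slab ρ I0 i) hR
          (measurable_gA (hρ0.trans_le (le_sig hρ0 i)) hF) hfib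
          (fun c => hM i _ c hω1)

/-- The induction step. -/
theorem step {m : ℕ} (hm : 1 ≤ m) {ρ : ℝ} (hρ0 : 0 < ρ) (hρ1 : ρ ≤ 1) {I0 : ℕ}
    (hI0 : 1 ≤ 2 ^ I0 * ρ) {A : ℝ≥0∞}
    (hIH : ∀ G : E (m + 1) → ℝ≥0∞, Measurable G → SolidE G → PropMax m ρ A G)
    {F : E (m + 2) → ℝ≥0∞} (hF : Measurable F) (hS : SolidE F) :
    PropMax (m + 1) ρ (((I0 + 2 : ℕ) : ℝ≥0∞) ^ (m + 2) * (cS m * (A *
      ENNReal.ofReal (100 * (1 + Real.log (1 / ρ)))))) F := by
  have hσ : ∀ i, 0 < sig ρ i := fun i => hρ0.trans_le (le_sig hρ0 i)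
  have hP : ∀ i : ℕ, PropMax m ρ A (fun z => gA (sig ρ i) F z ^ (((m:ℝ) + 2) / (m + 1))) := by
    intro i
    apply hIH
    · exact (measurable_gA (hσ i) hF).pow_const _
    · intro x y h1 h2
      apply ENNReal.rpow_le_rpow (hS.gA x y h1 h2) (by positivity)
  choose M hMm hMle hMint using hP
  have hlog : 0 ≤ Real.log (1 / ρ) := Real.log_nonneg (by rw [le_div_iff₀ hρ0]; linarith)
  set N : ℝ≥0∞ := ((I0 + 2 : ℕ) : ℝ≥0∞) with hN
  set Q : E (m + 2) → ℝ≥0∞ := fun e => N ^ (m + 1) * ∑ i ∈ Finset.range (I0 + 2),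
        cS m * ENNReal.ofReal (Kr m ρ (sig ρ i) ‖tl e‖ (e 0)) * M i (‖tl e‖⁻¹ • tl e) with hQ
  have hQm : Measurable Q := by
    apply Measurable.const_mul
    apply Finset.measurable_sum
    intro i _
    apply Measurable.mul
    · apply Measurable.const_mul
      apply ENNReal.measurable_ofReal.comp
      exact (measurable_Kr m ρ (sig ρ i)).comp (measurable_tl.norm.prodMk (measurable_apply 0))
    · exact (hMm i).comp (measurable_tl.norm.inv.smul measurable_tl)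
  set S0 : Set (E (m + 2)) := {e | tl e = 0 ∨ e 0 = 0} with hS0
  have hS0m : MeasurableSet S0 := by
    apply MeasurableSet.union
    · exact measurable_tl (measurableSet_singleton 0)
    · exact measurable_apply 0 (measurableSet_singleton 0)
  refine ⟨fun e => Q e + S0.indicator (fun _ => ∞) e,
    hQm.add (measurable_const.indicator hS0m), ?_, ?_⟩
  · intro e b he
    change _ ≤ Q e + S0.indicator (fun _ => ∞) e
    by_cases h0 : e ∈ S0
    · rw [indicator_of_mem h0]; simp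
    · have h1 : tl e ≠ 0 := fun h => h0 (Or.inl h)
      have h2 : e 0 ≠ 0 := fun h => h0 (Or.inr h)
      rw [indicator_of_notMem h0, add_zero]
      exact point_sum hm hρ0 hρ1 hI0 hF hS he h1 h2 (fun i ω c hω => hMle i ω c hω)
  · set I := ∫⁻ y, F y ^ (m + 2) with hI
    refine (slice m (hQm.add (measurable_const.indicator hS0m))).trans ?_
    have hne : ∀ᵐ z : E (m + 1), z ≠ 0 := by
      rw [ae_iff]
      simp
    have hneτ : ∀ᵐ τ : ℝ, τ ≠ 0 := by
      rw [ae_iff]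
      simp
    have hinner : ∀ᵐ τ : ℝ, ENNReal.ofReal (rr τ ^ (m + 2)) *
        ∫⁻ u in closedBall (0 : E (m + 1)) 1, (Q (rr τ • ins τ (‖u‖⁻¹ • u)) +
          S0.indicator (fun _ => ∞) (rr τ • ins τ (‖u‖⁻¹ • u))) ≤
        ∑ i ∈ Finset.range (I0 + 2), (N ^ (m + 1) * (cS m * (A * ((ENNReal.ofReal (2 * sig ρ i))⁻¹
          * I)))) * (ENNReal.ofReal (rr τ ^ (m + 2)) *
            ENNReal.ofReal (Kr m ρ (sig ρ i) (rr τ) (rr τ * τ))) := by
      filter_upwards [hneτ] with τ hτ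
      have hr := rr_pos τ
      have h1 : ∫⁻ u in closedBall (0 : E (m + 1)) 1, (Q (rr τ • ins τ (‖u‖⁻¹ • u)) +
          S0.indicator (fun _ => ∞) (rr τ • ins τ (‖u‖⁻¹ • u))) =
          ∫⁻ u in closedBall (0 : E (m + 1)) 1, ∑ i ∈ Finset.range (I0 + 2), (N ^ (m + 1) *
            (cS m * ENNReal.ofReal (Kr m ρ (sig ρ i) (rr τ) (rr τ * τ)))) *
              M i (‖u‖⁻¹ • u) := by
        apply lintegral_congr_ae
        filter_upwards [ae_restrict_of_ae hne] with u hu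
        have hu0 : 0 < ‖u‖ := norm_pos_iff.2 hu
        have e1 : tl (rr τ • ins τ (‖u‖⁻¹ • u)) = rr τ • (‖u‖⁻¹ • u) := by
          rw [tl_smul, tl_ins]
        have e2 : (rr τ • ins τ (‖u‖⁻¹ • u)) 0 = rr τ * τ := by
          rw [PiLp.smul_apply, ins_apply_zero, smul_eq_mul]
        have e3 : ‖‖u‖⁻¹ • u‖ = 1 := by
          rw [norm_smul, norm_inv, norm_norm, inv_mul_cancel₀ hu0.ne']
        have e4 : ‖tl (rr τ • ins τ (‖u‖⁻¹ • u))‖ = rr τ := by
          rw [e1, norm_smul, e3, mul_one, Real.norm_of_nonneg hr.le]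
        have e5 : rr τ • ins τ (‖u‖⁻¹ • u) ∉ S0 := by
          rintro (h | h)
          · have := e4
            rw [h, norm_zero] at this
            exact hr.ne this
          · rw [e2] at h
            exact (mul_ne_zero hr.ne' hτ) h
        rw [indicator_of_notMem e5, add_zero, hQ]
        simp only
        rw [e4, e2, e1, smul_smul, inv_mul_cancel₀ hr.ne', one_smul, Finset.mul_sum]
        apply Finset.sum_congr rfl
        intro i _
        ring
      have hmd : Measurable (fun u : E (m + 1) => ‖u‖⁻¹ • u) :=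
        measurable_norm.inv.smul measurable_id
      have hmi : ∀ i ∈ Finset.range (I0 + 2), Measurable (fun u : E (m + 1) => (N ^ (m + 1) *
            (cS m * ENNReal.ofReal (Kr m ρ (sig ρ i) (rr τ) (rr τ * τ)))) *
              M i (‖u‖⁻¹ • u)) := fun i _ => ((hMm i).comp hmd).const_mul _
      rw [h1, lintegral_finsetSum _ hmi, Finset.mul_sum]
      apply Finset.sum_le_sum
      intro i _
      have h2 : ∫⁻ u in closedBall (0 : E (m + 1)) 1, M i (‖u‖⁻¹ • u) ≤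
          A * ((ENNReal.ofReal (2 * sig ρ i))⁻¹ * I) := by
        refine (hMint i).trans ?_
        gcongr
        exact lintegral_gA_pow (hσ i) hF
      have hMd : Measurable (fun u : E (m + 1) => M i (‖u‖⁻¹ • u)) := (hMm i).comp hmd
      rw [lintegral_const_mul _ hMd]
      calc ENNReal.ofReal (rr τ ^ (m + 2)) * (N ^ (m + 1) *
            (cS m * ENNReal.ofReal (Kr m ρ (sig ρ i) (rr τ) (rr τ * τ))) *
            ∫⁻ u in closedBall (0 : E (m + 1)) 1, M i (‖u‖⁻¹ • u))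
          ≤ ENNReal.ofReal (rr τ ^ (m + 2)) * (N ^ (m + 1) *
            (cS m * ENNReal.ofReal (Kr m ρ (sig ρ i) (rr τ) (rr τ * τ))) *
            (A * ((ENNReal.ofReal (2 * sig ρ i))⁻¹ * I))) := by gcongr
        _ = _ := by ring
    refine (lintegral_mono_ae hinner).trans ?_
    have hmτ : ∀ i : ℕ, Measurable (fun τ : ℝ => ENNReal.ofReal (rr τ ^ (m + 2)) *
            ENNReal.ofReal (Kr m ρ (sig ρ i) (rr τ) (rr τ * τ))) := by
      intro i
      have h7 : Measurable (fun τ : ℝ => ENNReal.ofReal (rr τ ^ (m + 2))) :=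
        ENNReal.measurable_ofReal.comp (measurable_rr.pow_const _)
      have h8 : Measurable (fun τ : ℝ => (rr τ, rr τ * τ)) :=
        measurable_rr.prodMk (measurable_rr.mul measurable_id)
      have h9 : Measurable (fun τ : ℝ => ENNReal.ofReal (Kr m ρ (sig ρ i) (rr τ) (rr τ * τ))) :=
        ENNReal.measurable_ofReal.comp ((measurable_Kr m ρ (sig ρ i)).comp h8)
      exact h7.mul h9
    rw [lintegral_finsetSum _ (fun i _ => (hmτ i).const_mul _)]
    calc ∑ i ∈ Finset.range (I0 + 2), ∫⁻ τ : ℝ, (N ^ (m + 1) * (cS m * (A *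
          ((ENNReal.ofReal (2 * sig ρ i))⁻¹ * I)))) * (ENNReal.ofReal (rr τ ^ (m + 2)) *
            ENNReal.ofReal (Kr m ρ (sig ρ i) (rr τ) (rr τ * τ)))
        ≤ ∑ i ∈ Finset.range (I0 + 2), N ^ (m + 1) * (cS m * (A *
            ENNReal.ofReal (100 * (1 + Real.log (1 / ρ))) * I)) := by
          apply Finset.sum_le_sum
          intro i _
          rw [lintegral_const_mul _ (hmτ i)]
          have h3 := tau_int m hρ0 hρ1 (le_sig hρ0 i)
          have h4 : (ENNReal.ofReal (2 * sig ρ i))⁻¹ *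
              ENNReal.ofReal (200 * sig ρ i * (1 + Real.log (1 / ρ))) =
              ENNReal.ofReal (100 * (1 + Real.log (1 / ρ))) := by
            have e6 : 200 * sig ρ i * (1 + Real.log (1 / ρ)) =
                (2 * sig ρ i) * (100 * (1 + Real.log (1 / ρ))) := by ring
            have h5 := hσ i
            rw [e6, ENNReal.ofReal_mul (p := 2 * sig ρ i) (by positivity), ← mul_assoc,
              ENNReal.inv_mul_cancel
              (by simpa using h5) ENNReal.ofReal_ne_top, one_mul]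
          calc (N ^ (m + 1) * (cS m * (A * ((ENNReal.ofReal (2 * sig ρ i))⁻¹ * I)))) *
                ∫⁻ τ : ℝ, ENNReal.ofReal (rr τ ^ (m + 2)) *
                  ENNReal.ofReal (Kr m ρ (sig ρ i) (rr τ) (rr τ * τ))
              ≤ (N ^ (m + 1) * (cS m * (A * ((ENNReal.ofReal (2 * sig ρ i))⁻¹ * I)))) *
                ENNReal.ofReal (200 * sig ρ i * (1 + Real.log (1 / ρ))) := by gcongr
            _ = N ^ (m + 1) * (cS m * (A * ((ENNReal.ofReal (2 * sig ρ i))⁻¹ *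
                ENNReal.ofReal (200 * sig ρ i * (1 + Real.log (1 / ρ)))) * I)) := by ring
            _ = _ := by rw [h4]
      _ = _ := by
          rw [Finset.sum_const, Finset.card_range, nsmul_eq_mul, ← hN]
          ring

end Pool.Agent.W767.Sd
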