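import Pool.Agent.H742R2.Kk.Planar
import Pool.Agent.W767.Sd.StepS

set_option autoImplicit false

/-!
# The planar case
-/

open MeasureTheory Set Filter Topology ENNReal NNReal Metric

namespace Pool.Agent.W767.Sd

open Pool.Agent.H742R2.Kk Pool.Agent.W767.Kc

theorem eq_e1_zero {e : E 1} (he : ‖e‖ = 1) (he0 : 0 < e 0) : e = ins 1 0 := by
  have h1 := norm_sq_eq e
  have h2 : tl e = 0 := Subsingleton.elim _ _
  rw [he, h2, norm_zero] at h1
  have h3 : e 0 = 1 := by nlinarith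
  conv_lhs => rw [← ins_eta e]
  rw [h3, h2]

theorem reducible_two {a : E 2 → E 2} (ha : Measurable a) : Reducible 2 a := by
  refine ⟨ha, LinearIsometryEquiv.refl ℝ _, ?_⟩
  intro θ
  set p : E 2 := a (emb θ 0 (ins 1 0)) with hp
  refine ⟨-(p 0) * Real.sin θ + p 1 * Real.cos θ,
    fun _ => ins (p 0 * Real.cos θ + p 1 * Real.sin θ) 0, measurable_const, ?_⟩
  intro e he he0
  refine ⟨0, ?_⟩
  have h1 := eq_e1_zero he he0
  subst h1
  rw [zero_smul, add_zero]
  simp only [LinearIsometryEquiv.coe_refl, id_eq]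
  rw [← hp, emb_eq]
  have hsc := Real.sin_sq_add_cos_sq θ
  ext i
  fin_cases i
  · change p 0 = (ins _ _ : E 2) 0
    rw [ins_apply_zero]
    linear_combination (-(p 0)) * hsc
  · change p 1 = (ins _ _ : E 2) (Fin.succ 0)
    rw [ins_apply_succ, ins_apply_zero]
    linear_combination (-(p 1)) * hsc

/-- The supremum over the pieces. -/
noncomputable def WW (ρ : ℝ) (F : E 2 → ℝ≥0∞) (a : E 2 → E 2) (e : E 2) : ℝ≥0∞ :=
  ⨆ k : ℤ, wav (2 * ρ) a k F e

theorem measurable_WW {ρ : ℝ} {F : E 2 → ℝ≥0∞} (hF : Measurable F) {a : E 2 → E 2}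
    (ha : Measurable a) : Measurable (WW ρ F a) := by
  unfold WW
  apply Measurable.iSup
  intro k
  have h1 : Measurable (Function.uncurry (fun (_ : Unit) (y : E 2) => F y)) :=
    hF.comp measurable_snd
  have h2 := measurable_wav (δ := 2 * ρ) ha k h1
  exact h2.comp (measurable_const.prodMk measurable_id : Measurable (fun e : E 2 => ((), e)))

theorem WW_congr {ρ : ℝ} {F : E 2 → ℝ≥0∞} {a a' : E 2 → E 2} {e : E 2} (h : a e = a' e) :
    WW ρ F a e = WW ρ F a' e := by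
  unfold WW wav
  rw [h]

/-- Selections. -/
theorem exists_sel {ρ : ℝ} {F : E 2 → ℝ≥0∞} (hF : Measurable F) (q : ℕ → E 2) (N : ℕ) :
    ∃ a : E 2 → E 2, Measurable a ∧ ∀ e, WW ρ F a e =
      (Finset.range (N + 1)).sup (fun j => WW ρ F (fun _ => q j) e) := by
  classical
  induction N with
  | zero => exact ⟨fun _ => q 0, measurable_const, fun e => by simp⟩
  | succ N ih =>
    obtain ⟨a, ha, hae⟩ := ih
    set S : Set (E 2) := {e | WW ρ F a e ≤ WW ρ F (fun _ => q (N + 1)) e} with hS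
    have hSm : MeasurableSet S :=
      measurableSet_le (measurable_WW hF ha) (measurable_WW hF measurable_const)
    refine ⟨fun e => if e ∈ S then q (N + 1) else a e,
      Measurable.ite hSm measurable_const ha, ?_⟩
    intro e
    rw [Finset.range_add_one, Finset.sup_insert, ← hae e]
    by_cases h : e ∈ S
    · rw [WW_congr (a' := fun _ => q (N + 1)) (by simp [h])]
      exact (max_eq_left h).symm
    · rw [WW_congr (a' := a) (by simp [h])]
      have h2 : WW ρ F (fun _ => q (N + 1)) e ≤ WW ρ F a e := le_of_lt (not_le.1 h)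
      exact (max_eq_right h2).symm

theorem cyl_cover {ρ : ℝ} {e b q : E 2} (he : ‖e‖ = 1) (hq : ‖b - q‖ ≤ ρ) :
    ∃ k : ℤ, cyl ρ 1 e b ⊆ tub (2 * ρ) e q k ∪ (tub (2 * ρ) e q (k + 1) ∪
      tub (2 * ρ) e q (k + 2)) := by
  refine ⟨⌊(inner ℝ b e : ℝ) - 1⌋, ?_⟩
  set k : ℤ := ⌊(inner ℝ b e : ℝ) - 1⌋ with hk
  have h1 : (k:ℝ) ≤ (inner ℝ b e : ℝ) - 1 := Int.floor_le _
  have h2 : (inner ℝ b e : ℝ) - 1 < k + 1 := Int.lt_floor_add_one _
  rintro y ⟨hy1, hy2⟩
  have h3 : ‖(y - q) - (inner ℝ (y - q) e : ℝ) • e‖ ≤ 2 * ρ := by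
    have e1 : (y - q) - (inner ℝ (y - q) e : ℝ) • e = ((y - b) - (inner ℝ (y - b) e : ℝ) • e) +
        ((b - q) - (inner ℝ (b - q) e : ℝ) • e) := by
      have e2 : (inner ℝ (y - q) e : ℝ) = inner ℝ (y - b) e + inner ℝ (b - q) e := by
        rw [← inner_add_left]; congr 1; abel
      rw [e2, add_smul]; abel
    rw [e1]
    calc _ ≤ ‖(y - b) - (inner ℝ (y - b) e : ℝ) • e‖ + ‖(b - q) - (inner ℝ (b - q) e : ℝ) • e‖ :=
          norm_add_le _ _
      _ ≤ ρ + ρ := add_le_add hy2 ((perp_le he).trans hq)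
      _ = 2 * ρ := by ring
  rw [inner_sub_left, abs_le] at hy1
  rcases le_or_gt (inner ℝ y e : ℝ) (k + 1) with h4 | h4
  · left
    exact ⟨by linarith [hy1.1], h4, h3⟩
  · right
    rcases le_or_gt (inner ℝ y e : ℝ) (k + 2) with h5 | h5
    · left
      refine ⟨?_, ?_, h3⟩
      · push_cast; linarith
      · push_cast; linarith
    · right
      refine ⟨?_, ?_, h3⟩
      · push_cast; linarith
      · push_cast; linarith [hy1.2]

theorem cyl_le_WW {ρ : ℝ} (hρ : 0 < ρ) {F : E 2 → ℝ≥0∞} {e b q : E 2} (he : ‖e‖ = 1)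
    (hq : ‖b - q‖ ≤ ρ) :
    (ENNReal.ofReal ρ ^ 1)⁻¹ * ∫⁻ y in cyl ρ 1 e b, F y ≤ 6 * WW ρ F (fun _ => q) e := by
  obtain ⟨k, hk⟩ := cyl_cover he hq
  have h0 : ENNReal.ofReal (2 * ρ) ≠ 0 := by simpa using hρ
  have h1 : ∀ j : ℤ, ∫⁻ y in tub (2 * ρ) e q j, F y ≤
      ENNReal.ofReal (2 * ρ) * WW ρ F (fun _ => q) e := by
    intro j
    have h2 : wav (2 * ρ) (fun _ => q) j F e ≤ WW ρ F (fun _ => q) e :=
      le_iSup (fun k : ℤ => wav (2 * ρ) (fun _ => q) k F e) j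
    calc ∫⁻ y in tub (2 * ρ) e q j, F y
        = ENNReal.ofReal (2 * ρ) * wav (2 * ρ) (fun _ => q) j F e := by
          rw [wav, pow_one, ← mul_assoc, ENNReal.mul_inv_cancel h0 ENNReal.ofReal_ne_top, one_mul]
      _ ≤ _ := by gcongr
  set W := WW ρ F (fun _ => q) e with hW
  have h3 : ∫⁻ y in cyl ρ 1 e b, F y ≤ 3 * (ENNReal.ofReal (2 * ρ) * W) := by
    calc ∫⁻ y in cyl ρ 1 e b, F y ≤ ∫⁻ y in tub (2 * ρ) e q k ∪ (tub (2 * ρ) e q (k + 1) ∪
          tub (2 * ρ) e q (k + 2)), F y := lintegral_mono_set hk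
      _ ≤ (∫⁻ y in tub (2 * ρ) e q k, F y) + ((∫⁻ y in tub (2 * ρ) e q (k + 1), F y) +
          ∫⁻ y in tub (2 * ρ) e q (k + 2), F y) :=
          (lintegral_union_le _ _ _).trans (add_le_add le_rfl (lintegral_union_le _ _ _))
      _ ≤ ENNReal.ofReal (2 * ρ) * W + (ENNReal.ofReal (2 * ρ) * W +
          ENNReal.ofReal (2 * ρ) * W) :=
          add_le_add (h1 _) (add_le_add (h1 _) (h1 _))
      _ = _ := by ring
  have h4 : ENNReal.ofReal (2 * ρ) = 2 * ENNReal.ofReal ρ := by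
    rw [ENNReal.ofReal_mul (by norm_num)]; simp
  calc (ENNReal.ofReal ρ ^ 1)⁻¹ * ∫⁻ y in cyl ρ 1 e b, F y
      ≤ (ENNReal.ofReal ρ ^ 1)⁻¹ * (3 * (ENNReal.ofReal (2 * ρ) * W)) := by gcongr
    _ = ((ENNReal.ofReal ρ)⁻¹ * ENNReal.ofReal ρ) * (6 * W) := by
        rw [h4, pow_one]; ring
    _ = 6 * W := by
        rw [ENNReal.inv_mul_cancel (by simpa using hρ) ENNReal.ofReal_ne_top, one_mul]

theorem base_small : ∃ D : ℝ, 0 < D ∧ ∀ ρ : ℝ, 0 < ρ → 2 * ρ < 1 → ∀ F : E 2 → ℝ≥0∞,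
    Measurable F → PropMax 1 ρ (ENNReal.ofReal (D * (1 + Real.log (1 / ρ)))) F := by
  obtain ⟨C, hC, hP⟩ := planar
  obtain ⟨D, hD, hKB⟩ := kb_all hC hP 1
  refine ⟨36 * D, by positivity, ?_⟩
  intro ρ hρ hρ1 F hF
  set q : ℕ → E 2 := TopologicalSpace.denseSeq (E 2) with hq
  choose a ha hae using fun N => exists_sel (ρ := ρ) hF q N
  set M0 : E 2 → ℝ≥0∞ := fun e => ⨆ N, WW ρ F (a N) e with hM0
  have hM0m : Measurable M0 := Measurable.iSup (fun N => measurable_WW hF (ha N))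
  have hlog : Real.log (1 / (2 * ρ)) ≤ Real.log (1 / ρ) := by
    apply Real.log_le_log (by positivity)
    apply one_div_le_one_div_of_le hρ
    linarith
  refine ⟨fun e => (6 * M0 e) ^ 2, (hM0m.const_mul 6).pow_const 2, ?_, ?_⟩
  · intro e b he
    have hd : DenseRange q := TopologicalSpace.denseRange_denseSeq (E 2)
    obtain ⟨j, hj⟩ := hd.exists_dist_lt b hρ
    have h1 := cyl_le_WW hρ (F := F) he (q := q j) (by rw [← dist_eq_norm]; exact hj.le)
    refine pow_le_pow_left' (h1.trans ?_) 2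
    gcongr
    calc WW ρ F (fun _ => q j) e
        ≤ (Finset.range (j + 1)).sup (fun j => WW ρ F (fun _ => q j) e) :=
          Finset.le_sup (f := fun j => WW ρ F (fun _ => q j) e) (Finset.self_mem_range_succ j)
      _ = WW ρ F (a j) e := (hae j e).symm
      _ ≤ M0 e := le_iSup (fun N => WW ρ F (a N) e) j
  · have hmono : ∀ e, Monotone (fun N => WW ρ F (a N) e) := by
      intro e N N' hNN
      simp only
      rw [hae, hae]
      apply Finset.sup_mono
      intro i hi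
      simp only [Finset.mem_range] at hi ⊢
      omega
    have hmd : Measurable (fun x : E 2 => ‖x‖⁻¹ • x) := measurable_norm.inv.smul measurable_id
    have h1 : ∫⁻ x in closedBall (0 : E 2) 1, (6 * M0 (‖x‖⁻¹ • x)) ^ 2 =
        36 * ⨆ N, ∫⁻ x in closedBall (0 : E 2) 1, WW ρ F (a N) (‖x‖⁻¹ • x) ^ 2 := by
      have hWm : ∀ N, Measurable (fun x : E 2 => WW ρ F (a N) (‖x‖⁻¹ • x) ^ 2) := fun N =>
        ((measurable_WW hF (ha N)).comp hmd).pow_const 2
      rw [← lintegral_iSup hWm]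
      · rw [← lintegral_const_mul _ (Measurable.iSup hWm)]
        apply lintegral_congr
        intro x
        rw [mul_pow, hM0]
        simp only
        rw [ENNReal.iSup_pow]
        norm_num
      · intro N N' hNN x
        exact pow_le_pow_left' (hmono _ hNN) 2
    change ∫⁻ x in closedBall (0 : E 2) 1, (6 * M0 (‖x‖⁻¹ • x)) ^ 2 ≤ _
    rw [h1]
    have h2 : ∀ N, ∫⁻ x in closedBall (0 : E 2) 1, WW ρ F (a N) (‖x‖⁻¹ • x) ^ 2 ≤
        ENNReal.ofReal (D * (1 + Real.log (1 / ρ))) * ∫⁻ y, F y ^ 2 := by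
      intro N
      have h3 := hKB (2 * ρ) (a N) (by positivity) hρ1 (reducible_two (ha N)) F hF
      refine h3.trans ?_
      rw [pow_one]
      gcongr
    calc 36 * ⨆ N, ∫⁻ x in closedBall (0 : E 2) 1, WW ρ F (a N) (‖x‖⁻¹ • x) ^ 2
        ≤ 36 * (ENNReal.ofReal (D * (1 + Real.log (1 / ρ))) * ∫⁻ y, F y ^ 2) := by
          gcongr
          exact iSup_le h2
      _ = _ := by
          rw [← mul_assoc]
          congr 1
          rw [mul_assoc 36 D, ENNReal.ofReal_mul (p := 36) (by norm_num)]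
          simp

theorem base_large : ∃ D : ℝ, 0 < D ∧ ∀ ρ : ℝ, 1 / 2 ≤ ρ → ρ ≤ 1 → ∀ F : E 2 → ℝ≥0∞,
    Measurable F → PropMax 1 ρ (ENNReal.ofReal D) F := by
  set V2 : ℝ≥0∞ := volume (closedBall (0 : E 2) 2) with hV2
  set V1 : ℝ≥0∞ := volume (closedBall (0 : E 2) 1) with hV1
  have hV2t : V2 ≠ ∞ := measure_closedBall_lt_top.ne
  have hV1t : V1 ≠ ∞ := measure_closedBall_lt_top.ne
  refine ⟨4 * V2.toReal * V1.toReal + 1, by positivity, ?_⟩
  intro ρ hρ hρ1 F hF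
  have hρ0 : 0 < ρ := by linarith
  set I := ∫⁻ y, F y ^ 2 with hI
  refine ⟨fun _ => 4 * V2 * I, measurable_const, ?_, ?_⟩
  · intro e b he
    have hsub : cyl ρ 1 e b ⊆ closedBall b 2 := by
      rintro y ⟨h1, h2⟩
      rw [mem_closedBall, dist_eq_norm]
      calc ‖y - b‖ = ‖((y - b) - (inner ℝ (y - b) e : ℝ) • e) + (inner ℝ (y - b) e : ℝ) • e‖ := by
            rw [sub_add_cancel]
        _ ≤ ‖(y - b) - (inner ℝ (y - b) e : ℝ) • e‖ + ‖(inner ℝ (y - b) e : ℝ) • e‖ :=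
            norm_add_le _ _
        _ ≤ 1 + 1 := by
            rw [norm_smul, he, mul_one, Real.norm_eq_abs]
            linarith
        _ = 2 := by norm_num
    have h1 := lintegral_sq_le (volume.restrict (cyl ρ 1 e b)) (g := F) hF.aemeasurable
    rw [Measure.restrict_apply_univ] at h1
    have h2 : volume (cyl ρ 1 e b) ≤ V2 := by
      refine (measure_mono hsub).trans ?_
      rw [Measure.addHaar_closedBall_center]
    have h3 : (ENNReal.ofReal ρ ^ 1)⁻¹ ≤ 2 := by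
      rw [pow_one, ENNReal.inv_le_iff_inv_le]
      calc (2:ℝ≥0∞)⁻¹ = ENNReal.ofReal (1 / 2) := by
            rw [one_div, ENNReal.ofReal_inv_of_pos (by norm_num)]; simp
        _ ≤ ENNReal.ofReal ρ := ENNReal.ofReal_le_ofReal hρ
    calc ((ENNReal.ofReal ρ ^ 1)⁻¹ * ∫⁻ y in cyl ρ 1 e b, F y) ^ (1 + 1)
        ≤ (2 * ∫⁻ y in cyl ρ 1 e b, F y) ^ (1 + 1) := by gcongr
      _ = 4 * (∫⁻ y in cyl ρ 1 e b, F y) ^ 2 := by
          rw [mul_pow]; norm_num
      _ ≤ 4 * (V2 * I) := by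
          gcongr
          refine h1.trans ?_
          gcongr
          exact setLIntegral_le_lintegral _ _
      _ = 4 * V2 * I := by ring
  · change ∫⁻ _ in closedBall (0 : E 2) 1, 4 * V2 * I ≤ _
    rw [lintegral_const, Measure.restrict_apply_univ, ← hV1]
    calc 4 * V2 * I * V1 = (4 * V2 * V1) * I := by ring
      _ ≤ ENNReal.ofReal (4 * V2.toReal * V1.toReal + 1) * I := by
          gcongr
          rw [ENNReal.ofReal_add (by positivity) (by norm_num), ENNReal.ofReal_mul (by positivity),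
            ENNReal.ofReal_mul (by norm_num), ENNReal.ofReal_toReal hV2t,
            ENNReal.ofReal_toReal hV1t]
          simp

/-- The planar estimate for all functions. -/
theorem base : ∃ D : ℝ, 0 < D ∧ ∀ ρ : ℝ, 0 < ρ → ρ ≤ 1 → ∀ F : E 2 → ℝ≥0∞,
    Measurable F → PropMax 1 ρ (ENNReal.ofReal (D * (1 + Real.log (1 / ρ)))) F := by
  obtain ⟨D1, hD1, h1⟩ := base_small
  obtain ⟨D2, hD2, h2⟩ := base_large
  refine ⟨D1 + D2, by positivity, ?_⟩
  intro ρ hρ hρ1 F hF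
  have hlog : 0 ≤ Real.log (1 / ρ) := Real.log_nonneg (by rw [le_div_iff₀ hρ]; linarith)
  rcases lt_or_ge (2 * ρ) 1 with h | h
  · obtain ⟨M, hM1, hM2, hM3⟩ := h1 ρ hρ h F hF
    refine ⟨M, hM1, hM2, hM3.trans ?_⟩
    gcongr
    linarith
  · obtain ⟨M, hM1, hM2, hM3⟩ := h2 ρ (by linarith) hρ1 F hF
    refine ⟨M, hM1, hM2, hM3.trans ?_⟩
    refine mul_le_mul' (ENNReal.ofReal_le_ofReal ?_) le_rfl
    nlinarith

end Pool.Agent.W767.Sd
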