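import Pool.Agent.H742R2.Kk.TubProj
import Pool.Agent.W767.Kc.Tube
import Pool.Agent.W767.Kc.Chart

set_option autoImplicit false

/-!
# Geometry of a cylinder and its projection
-/

open MeasureTheory Set Filter Topology ENNReal NNReal Metric

namespace Pool.Agent.W767.Sd

open Pool.Agent.H742R2.Kk Pool.Agent.W767.Kc

/-- The solid cylinder with centre `b`, direction `e`, radius `ρ` and length `2 H`. -/
def cyl {n : ℕ} (ρ H : ℝ) (e b : E n) : Set (E n) :=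
  {y | |inner ℝ (y - b) e| ≤ H ∧ ‖(y - b) - (inner ℝ (y - b) e : ℝ) • e‖ ≤ ρ}

theorem isClosed_cyl {n : ℕ} (ρ H : ℝ) (e b : E n) : IsClosed (cyl ρ H e b) := by
  have h1 : Continuous (fun y : E n => |inner ℝ (y - b) e|) := by fun_prop
  have h2 : Continuous (fun y : E n => ‖(y - b) - (inner ℝ (y - b) e : ℝ) • e‖) := by fun_prop
  exact (isClosed_le h1 continuous_const).inter (isClosed_le h2 continuous_const)

theorem tl_sub {k : ℕ} (p q : E (k + 1)) : tl (p - q) = tl p - tl q := by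
  ext i; simp [tl]

theorem norm_tl_le {k : ℕ} (p : E (k + 1)) : ‖tl p‖ ≤ ‖p‖ := by
  have h := norm_sq_eq p
  have h2 : ‖tl p‖ ^ 2 ≤ ‖p‖ ^ 2 := by nlinarith [sq_nonneg (p 0)]
  exact (pow_le_pow_iff_left₀ (norm_nonneg _) (norm_nonneg _) two_ne_zero).mp h2

theorem norm_perp_sq {n : ℕ} {v e : E n} (he : ‖e‖ = 1) :
    ‖v - (inner ℝ v e : ℝ) • e‖ ^ 2 = ‖v‖ ^ 2 - (inner ℝ v e : ℝ) ^ 2 := by
  rw [norm_sub_sq_real, norm_smul, he, inner_smul_right, mul_one, Real.norm_eq_abs, sq_abs]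
  ring

theorem perp_le {n : ℕ} {v e : E n} (he : ‖e‖ = 1) :
    ‖v - (inner ℝ v e : ℝ) • e‖ ≤ ‖v‖ := by
  have h := norm_perp_sq (v := v) he
  have h2 : ‖v - (inner ℝ v e : ℝ) • e‖ ^ 2 ≤ ‖v‖ ^ 2 := by
    rw [h]; nlinarith [sq_nonneg (inner ℝ v e : ℝ)]
  exact (pow_le_pow_iff_left₀ (norm_nonneg _) (norm_nonneg _) two_ne_zero).mp h2

/-- Difference of two points of a cylinder. -/
theorem cyl_diff {n : ℕ} {ρ H : ℝ} {e b x x' : E n} (hx : x ∈ cyl ρ H e b)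
    (hx' : x' ∈ cyl ρ H e b) : |inner ℝ (x - x') e| ≤ 2 * H ∧
      ‖(x - x') - (inner ℝ (x - x') e : ℝ) • e‖ ≤ 2 * ρ := by
  obtain ⟨h1, h2⟩ := hx
  obtain ⟨h3, h4⟩ := hx'
  have e1 : x - x' = (x - b) - (x' - b) := by abel
  have e2 : (inner ℝ (x - x') e : ℝ) = inner ℝ (x - b) e - inner ℝ (x' - b) e := by
    rw [e1, inner_sub_left]
  constructor
  · rw [e2]
    calc |(inner ℝ (x - b) e : ℝ) - inner ℝ (x' - b) e|
        ≤ |(inner ℝ (x - b) e : ℝ)| + |(inner ℝ (x' - b) e : ℝ)| := abs_sub _ _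
      _ ≤ 2 * H := by linarith
  · have e3 : (x - x') - (inner ℝ (x - x') e : ℝ) • e =
        ((x - b) - (inner ℝ (x - b) e : ℝ) • e) - ((x' - b) - (inner ℝ (x' - b) e : ℝ) • e) := by
      rw [e2, sub_smul]; abel
    rw [e3]
    calc _ ≤ ‖(x - b) - (inner ℝ (x - b) e : ℝ) • e‖ + ‖(x' - b) - (inner ℝ (x' - b) e : ℝ) • e‖ :=
          norm_sub_le _ _
      _ ≤ 2 * ρ := by linarith

/-- Fibres of a cylinder in the direction of the first axis. -/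
theorem fibre_le {k : ℕ} {ρ : ℝ} {e b : E (k + 1)} (he : ‖e‖ = 1) {x x' : ℝ} {z : E k}
    (hx : ins x z ∈ cyl ρ 1 e b) (hx' : ins x' z ∈ cyl ρ 1 e b) :
    |x - x'| * ‖tl e‖ ≤ 2 * ρ ∧ |x - x'| ≤ 2 + 2 * ρ := by
  obtain ⟨h1, h2⟩ := cyl_diff hx hx'
  have e1 : ins x z - ins x' z = ins (x - x') 0 := by
    ext i
    refine Fin.cases ?_ (fun j => ?_) i
    · simp [ins_apply_zero]
    · simp [ins_apply_succ]
  rw [e1] at h1 h2
  have e2 : (inner ℝ (ins (x - x') 0) e : ℝ) = (x - x') * e 0 := by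
    conv_lhs => rw [← ins_eta e]
    rw [inner_ins, inner_zero_left, add_zero]
  have e3 : ‖ins (x - x') (0 : E k)‖ ^ 2 = (x - x') ^ 2 := by
    rw [norm_ins_sq]; simp
  have e4 : ‖ins (x - x') (0 : E k)‖ = |x - x'| := by
    rw [← abs_of_nonneg (norm_nonneg (ins (x - x') (0 : E k)))]
    exact (sq_eq_sq_iff_abs_eq_abs _ _).1 e3
  have hsq := norm_sq_eq e
  rw [he] at hsq
  constructor
  · have h3 := norm_perp_sq (v := ins (x - x') (0 : E k)) he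
    have h4 : (|x - x'| * ‖tl e‖) ^ 2 = ‖ins (x - x') 0 -
        (inner ℝ (ins (x - x') 0) e : ℝ) • e‖ ^ 2 := by
      rw [h3, e2, e3, mul_pow, sq_abs]
      linear_combination (x - x') ^ 2 * (-hsq)
    have h5 : |x - x'| * ‖tl e‖ = ‖ins (x - x') 0 - (inner ℝ (ins (x - x') 0) e : ℝ) • e‖ :=
      (pow_left_inj₀ (by positivity) (norm_nonneg _) two_ne_zero).mp h4
    rw [h5]; exact h2
  · rw [← e4]
    calc ‖ins (x - x') (0 : E k)‖ = ‖(ins (x - x') 0 -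
          (inner ℝ (ins (x - x') 0) e : ℝ) • e) + (inner ℝ (ins (x - x') 0) e : ℝ) • e‖ := by
          rw [sub_add_cancel]
      _ ≤ ‖ins (x - x') 0 - (inner ℝ (ins (x - x') 0) e : ℝ) • e‖ +
          ‖(inner ℝ (ins (x - x') 0) e : ℝ) • e‖ := norm_add_le _ _
      _ ≤ 2 + 2 * ρ := by
          rw [norm_smul, he, mul_one, Real.norm_eq_abs]
          linarith

/-- Projection of a cylinder. -/
theorem proj_mem {k : ℕ} {ρ : ℝ} (hρ1 : ρ ≤ 1) {e b x : E (k + 1)} (he : ‖e‖ = 1)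
    (he' : tl e ≠ 0) (hx : x ∈ cyl ρ 1 e b) :
    tl x ∈ cyl ρ 2 (‖tl e‖⁻¹ • tl e) (tl b) := by
  obtain ⟨h1, h2⟩ := hx
  set r := ‖tl e‖ with hr
  have hr0 : 0 < r := norm_pos_iff.2 he'
  have hr1 : r ≤ 1 := by rw [hr, ← he]; exact norm_tl_le e
  set ω := r⁻¹ • tl e with hω
  have hω1 : ‖ω‖ = 1 := by
    rw [hω, norm_smul, norm_inv, norm_norm, ← hr, inv_mul_cancel₀ hr0.ne']
  have hω2 : tl e = r • ω := by rw [hω, smul_smul, mul_inv_cancel₀ hr0.ne', one_smul]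
  set s : ℝ := inner ℝ (x - b) e with hs
  set w := (x - b) - s • e with hw
  have e1 : tl x - tl b = (s * r) • ω + tl w := by
    have e0 : (s * r) • ω = s • tl e := by rw [mul_smul, ← hω2]
    rw [e0, hw, tl_sub (x - b) (s • e), tl_smul, tl_sub, add_sub_cancel]
  have hw1 : ‖tl w‖ ≤ ρ := (norm_tl_le w).trans h2
  have e2 : (inner ℝ (tl x - tl b) ω : ℝ) = s * r + inner ℝ (tl w) ω := by
    rw [e1, inner_add_left, real_inner_smul_left, real_inner_self_eq_norm_sq, hω1]; ring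
  have h3 : |(inner ℝ (tl w) ω : ℝ)| ≤ ρ := by
    calc |(inner ℝ (tl w) ω : ℝ)| ≤ ‖tl w‖ * ‖ω‖ := abs_real_inner_le_norm _ _
      _ ≤ ρ := by rw [hω1, mul_one]; exact hw1
  refine ⟨?_, ?_⟩
  · rw [e2]
    calc |s * r + inner ℝ (tl w) ω| ≤ |s * r| + |(inner ℝ (tl w) ω : ℝ)| := abs_add_le _ _
      _ ≤ 1 * 1 + ρ := by
        rw [abs_mul, abs_of_pos hr0]
        gcongr
      _ ≤ 2 := by linarith
  · have e3 : (tl x - tl b) - (inner ℝ (tl x - tl b) ω : ℝ) • ω =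
        tl w - (inner ℝ (tl w) ω : ℝ) • ω := by
      rw [e2, e1, add_smul]; abel
    rw [e3]
    exact (perp_le hω1).trans hw1

/-- Length of the projection of a part of a cylinder. -/
theorem proj_diff {k : ℕ} {ρ σ : ℝ} (hρ0 : 0 < ρ) (hρσ : ρ ≤ σ) {e b x x' : E (k + 1)}
    (he : ‖e‖ = 1) (he' : tl e ≠ 0) (he0 : e 0 ≠ 0) (hx : x ∈ cyl ρ 1 e b)
    (hx' : x' ∈ cyl ρ 1 e b) (h : |x 0 - x' 0| ≤ 4 * σ ∨ 1 ≤ σ) :
    |inner ℝ (tl x - tl x') (‖tl e‖⁻¹ • tl e)| ≤ 6 * (σ * ‖tl e‖ + ρ) / |e 0| := by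
  obtain ⟨h1, h2⟩ := cyl_diff hx hx'
  set r := ‖tl e‖ with hr
  have hr0 : 0 < r := norm_pos_iff.2 he'
  have ha0 : 0 < |e 0| := abs_pos.2 he0
  have ha1 : |e 0| ≤ 1 := by rw [← he]; exact abs_apply_le e 0
  set ω := r⁻¹ • tl e with hω
  have hω1 : ‖ω‖ = 1 := by
    rw [hω, norm_smul, norm_inv, norm_norm, ← hr, inv_mul_cancel₀ hr0.ne']
  have hω2 : tl e = r • ω := by rw [hω, smul_smul, mul_inv_cancel₀ hr0.ne', one_smul]
  set s : ℝ := inner ℝ (x - x') e with hs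
  set w := (x - x') - s • e with hw
  have hσ0 : 0 < σ := hρ0.trans_le hρσ
  have e1 : tl x - tl x' = (s * r) • ω + tl w := by
    have e0 : (s * r) • ω = s • tl e := by rw [mul_smul, ← hω2]
    rw [e0, hw, tl_sub (x - x') (s • e), tl_smul, tl_sub, add_sub_cancel]
  have hw1 : ‖tl w‖ ≤ 2 * ρ := (norm_tl_le w).trans h2
  have e2 : (inner ℝ (tl x - tl x') ω : ℝ) = s * r + inner ℝ (tl w) ω := by
    rw [e1, inner_add_left, real_inner_smul_left, real_inner_self_eq_norm_sq, hω1]; ring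
  have h3 : |(inner ℝ (tl w) ω : ℝ)| ≤ 2 * ρ := by
    calc |(inner ℝ (tl w) ω : ℝ)| ≤ ‖tl w‖ * ‖ω‖ := abs_real_inner_le_norm _ _
      _ ≤ 2 * ρ := by rw [hω1, mul_one]; exact hw1
  have h4 : |s| * |e 0| ≤ 6 * σ := by
    rcases h with h | h
    · have e3 : s * e 0 = (x 0 - x' 0) - w 0 := by
        rw [hw]; simp
      have h5 : |w 0| ≤ 2 * ρ := (abs_apply_le w 0).trans h2
      rw [← abs_mul, e3]
      calc |(x 0 - x' 0) - w 0| ≤ |x 0 - x' 0| + |w 0| := abs_sub _ _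
        _ ≤ 6 * σ := by linarith
    · calc |s| * |e 0| ≤ 2 * 1 * 1 := by gcongr
        _ ≤ 6 * σ := by linarith
  rw [e2]
  calc |s * r + inner ℝ (tl w) ω| ≤ |s * r| + |(inner ℝ (tl w) ω : ℝ)| := abs_add_le _ _
    _ ≤ |s| * r + 2 * ρ := by
        rw [abs_mul, abs_of_pos hr0]
        gcongr
    _ ≤ 6 * σ / |e 0| * r + 6 * ρ / |e 0| := by
        gcongr
        · rw [le_div_iff₀ ha0]; exact h4
        · rw [le_div_iff₀ ha0]; nlinarith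
    _ = _ := by ring

/-- The measure of the fibre. -/
theorem volume_fibre {k : ℕ} {ρ σ : ℝ} (hρ0 : 0 < ρ) (hρ1 : ρ ≤ 1) (hσ : 0 < σ)
    {e b : E (k + 1)} (he : ‖e‖ = 1) (he' : tl e ≠ 0) {R : Set ℝ}
    (hR : (∀ x ∈ R, |x| ≤ 2 * σ) ∨ 1 ≤ σ) (z : E k) :
    volume {x : ℝ | x ∈ R ∧ ins x z ∈ cyl ρ 1 e b}
      ≤ ENNReal.ofReal (8 * ρ * min (1 / ‖tl e‖) (σ / ρ)) := by
  have hr0 : 0 < ‖tl e‖ := norm_pos_iff.2 he'
  rcases ({x : ℝ | x ∈ R ∧ ins x z ∈ cyl ρ 1 e b}).eq_empty_or_nonempty with h0 | ⟨x', hx'⟩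
  · rw [h0, measure_empty]; exact zero_le
  have hA : volume {x : ℝ | x ∈ R ∧ ins x z ∈ cyl ρ 1 e b} ≤ ENNReal.ofReal (8 * ρ * (1 / ‖tl e‖)) := by
    have hsub : {x : ℝ | x ∈ R ∧ ins x z ∈ cyl ρ 1 e b} ⊆
        Icc (x' - 2 * ρ / ‖tl e‖) (x' + 2 * ρ / ‖tl e‖) := by
      intro x hx
      have h1 := (fibre_le he hx.2 hx'.2).1
      rw [← le_div_iff₀ hr0, abs_le] at h1
      exact ⟨by linarith [h1.1], by linarith [h1.2]⟩
    refine (measure_mono hsub).trans ?_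
    rw [Real.volume_Icc]
    apply ENNReal.ofReal_le_ofReal
    have : 0 ≤ ρ / ‖tl e‖ := by positivity
    have e1 : x' + 2 * ρ / ‖tl e‖ - (x' - 2 * ρ / ‖tl e‖) = 4 * (ρ / ‖tl e‖) := by ring
    have e2 : 8 * ρ * (1 / ‖tl e‖) = 8 * (ρ / ‖tl e‖) := by ring
    rw [e1, e2]
    linarith
  have hB : volume {x : ℝ | x ∈ R ∧ ins x z ∈ cyl ρ 1 e b} ≤ ENNReal.ofReal (8 * ρ * (σ / ρ)) := by
    have e1 : 8 * ρ * (σ / ρ) = 8 * σ := by field_simp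
    rw [e1]
    rcases hR with hR | hR
    · have hsub : {x : ℝ | x ∈ R ∧ ins x z ∈ cyl ρ 1 e b} ⊆ Icc (-(2 * σ)) (2 * σ) :=
        fun x hx => abs_le.1 (hR x hx.1)
      refine (measure_mono hsub).trans ?_
      rw [Real.volume_Icc]
      apply ENNReal.ofReal_le_ofReal
      linarith
    · have hsub : {x : ℝ | x ∈ R ∧ ins x z ∈ cyl ρ 1 e b} ⊆ Icc (x' - 4) (x' + 4) := by
        intro x hx
        have h1 := (fibre_le he hx.2 hx'.2).2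
        rw [abs_le] at h1
        exact ⟨by linarith [h1.1], by linarith [h1.2]⟩
      refine (measure_mono hsub).trans ?_
      rw [Real.volume_Icc]
      apply ENNReal.ofReal_le_ofReal
      linarith
  rcases min_cases (1 / ‖tl e‖) (σ / ρ) with h | h
  · rw [h.1]; exact hA
  · rw [h.1]; exact hB

/-- Hölder. -/
theorem holder_m {α : Type*} [MeasurableSpace α] (μ : Measure α) {g : α → ℝ≥0∞}
    (hg : AEMeasurable g μ) (m : ℕ) :
    (∫⁻ x, g x ∂μ) ^ (m + 2) ≤ μ univ * (∫⁻ x, g x ^ (((m:ℝ) + 2) / (m + 1)) ∂μ) ^ (m + 1) := by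
  have hm1 : (0:ℝ) < (m:ℝ) + 1 := by positivity
  have hp : 1 < ((m:ℝ) + 2) / (m + 1) := by rw [lt_div_iff₀ hm1]; linarith
  have h := holder_pow μ hg hp
  have h2 : ((∫⁻ x, g x ∂μ) ^ (((m:ℝ) + 2) / (m + 1))) ^ (m + 1) ≤
      ((μ univ) ^ (((m:ℝ) + 2) / (m + 1) - 1) *
        ∫⁻ x, g x ^ (((m:ℝ) + 2) / (m + 1)) ∂μ) ^ (m + 1) := pow_le_pow_left' h _
  rw [mul_pow, ← ENNReal.rpow_natCast, ← ENNReal.rpow_natCast, ← ENNReal.rpow_mul,
    ← ENNReal.rpow_mul] at h2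
  have e1 : ((m:ℝ) + 2) / (m + 1) * ((m + 1 : ℕ) : ℝ) = ((m + 2 : ℕ) : ℝ) := by
    push_cast; field_simp
  have e2 : (((m:ℝ) + 2) / (m + 1) - 1) * ((m + 1 : ℕ) : ℝ) = 1 := by
    push_cast; field_simp; ring
  rw [e1, e2, ENNReal.rpow_natCast, ENNReal.rpow_one] at h2
  exact h2

end Pool.Agent.W767.Sd
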