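import Pool.Agent.W767.Sd.Base

set_option autoImplicit false

/-!
# The maximal estimate for solid functions
-/

open MeasureTheory Set Filter Topology ENNReal NNReal Metric

namespace Pool.Agent.W767.Sd

open Pool.Agent.H742R2.Kk Pool.Agent.W767.Kc

theorem exists_I0 {ρ : ℝ} (hρ : 0 < ρ) (hρ1 : ρ ≤ 1) :
    ∃ I0 : ℕ, 1 ≤ 2 ^ I0 * ρ ∧ ((I0 + 2 : ℕ) : ℝ) ≤ 3 * (1 + Real.log (1 / ρ)) := by
  have hlog2 : 2 / 3 < Real.log 2 := by
    have := Real.log_two_gt_d9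
    linarith
  have hx2 : (1:ℝ) ≤ 1 / ρ := by
    rw [le_div_iff₀ hρ]; linarith
  have hlog : 0 ≤ Real.log (1 / ρ) := Real.log_nonneg hx2
  refine ⟨⌈Real.logb 2 (1 / ρ)⌉₊, ?_, ?_⟩
  · have h1 : Real.logb 2 (1 / ρ) ≤ ⌈Real.logb 2 (1 / ρ)⌉₊ := Nat.le_ceil _
    rw [Real.logb_le_iff_le_rpow (by norm_num) (by linarith), Real.rpow_natCast] at h1
    rw [div_le_iff₀ hρ] at h1
    exact h1
  · have h0 : 0 ≤ Real.logb 2 (1 / ρ) := Real.logb_nonneg (by norm_num) hx2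
    have h1 := (Nat.ceil_lt_add_one h0).le
    have h2 : Real.logb 2 (1 / ρ) ≤ (3/2) * Real.log (1 / ρ) := by
      rw [Real.logb, div_le_iff₀ (by linarith)]
      nlinarith
    push_cast
    linarith

theorem solid_all (m : ℕ) (hm : 1 ≤ m) : ∃ C : ℝ, 0 < C ∧ ∀ ρ : ℝ, 0 < ρ → ρ ≤ 1 →
    ∀ F : E (m + 1) → ℝ≥0∞, Measurable F → SolidE F →
      PropMax m ρ (ENNReal.ofReal (C * (1 + Real.log (1 / ρ)) ^ ((m + 1) ^ 2))) F := by
  induction m, hm using Nat.le_induction with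
  | base =>
    obtain ⟨D, hD, h⟩ := base
    refine ⟨D, hD, ?_⟩
    intro ρ hρ hρ1 F hF _
    have hlog : 0 ≤ Real.log (1 / ρ) := Real.log_nonneg (by rw [le_div_iff₀ hρ]; linarith)
    obtain ⟨M, hM1, hM2, hM3⟩ := h ρ hρ hρ1 F hF
    refine ⟨M, hM1, hM2, hM3.trans ?_⟩
    gcongr
    exact le_self_pow₀ (by linarith) (by norm_num)
  | succ m hm ih =>
    obtain ⟨C, hC, h⟩ := ih
    set c := (cS m).toReal with hc
    refine ⟨3 ^ (m + 2) * ((c + 1) * (C * 100)), by positivity, ?_⟩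
    intro ρ hρ hρ1 F hF hS
    have hlog : 0 ≤ Real.log (1 / ρ) := Real.log_nonneg (by rw [le_div_iff₀ hρ]; linarith)
    set L : ℝ := 1 + Real.log (1 / ρ) with hL
    have hL1 : 1 ≤ L := by linarith
    obtain ⟨I0, hI0, hN⟩ := exists_I0 hρ hρ1
    obtain ⟨M, hM1, hM2, hM3⟩ := step hm hρ hρ1 hI0 (fun G hG hGS => h ρ hρ hρ1 G hG hGS) hF hS
    refine ⟨M, hM1, hM2, hM3.trans ?_⟩
    refine mul_le_mul' ?_ le_rfl
    have e1 : ((I0 + 2 : ℕ) : ℝ≥0∞) ≤ ENNReal.ofReal (3 * L) := by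
      rw [← ENNReal.ofReal_natCast]
      exact ENNReal.ofReal_le_ofReal hN
    have e2 : cS m ≤ ENNReal.ofReal (c + 1) := by
      calc cS m = ENNReal.ofReal c := (ENNReal.ofReal_toReal (cS_ne_top m)).symm
        _ ≤ _ := ENNReal.ofReal_le_ofReal (by linarith)
    calc ((I0 + 2 : ℕ) : ℝ≥0∞) ^ (m + 2) * (cS m * (ENNReal.ofReal (C * L ^ ((m + 1) ^ 2)) *
          ENNReal.ofReal (100 * L)))
        ≤ (ENNReal.ofReal (3 * L)) ^ (m + 2) * (ENNReal.ofReal (c + 1) *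
          (ENNReal.ofReal (C * L ^ ((m + 1) ^ 2)) * ENNReal.ofReal (100 * L))) := by gcongr
      _ = ENNReal.ofReal ((3 * L) ^ (m + 2) * ((c + 1) * ((C * L ^ ((m + 1) ^ 2)) *
            (100 * L)))) := by
          rw [← ENNReal.ofReal_pow (by positivity), ← ENNReal.ofReal_mul (by positivity),
            ← ENNReal.ofReal_mul (by positivity), ← ENNReal.ofReal_mul (by positivity)]
      _ ≤ _ := by
          apply ENNReal.ofReal_le_ofReal
          have e3 : (3 * L) ^ (m + 2) * ((c + 1) * ((C * L ^ ((m + 1) ^ 2)) * (100 * L))) =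
              3 ^ (m + 2) * ((c + 1) * (C * 100)) * L ^ ((m + 1) ^ 2 + (m + 3)) := by
            rw [mul_pow, pow_add L ((m + 1) ^ 2) (m + 3), show m + 3 = (m + 2) + 1 from rfl,
              pow_succ L (m + 2)]
            ring
          rw [e3]
          gcongr
          nlinarith

end Pool.Agent.W767.Sd
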