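import Pool.Agent.H742R2.Kk.Step
import Pool.Agent.H742R2.Kk.Sphere
import Pool.Agent.W767.Kc.Sph

set_option autoImplicit false

/-!
# Integration over directions in slices
-/

open MeasureTheory Set Filter Topology ENNReal NNReal Metric

namespace Pool.Agent.W767.Sd

open Pool.Agent.H742R2.Kk Pool.Agent.W767.Kc

/-- `(1 + τ ^ 2) ^ (-1/2)`. -/
noncomputable def rr (τ : ℝ) : ℝ := (√(1 + τ ^ 2))⁻¹

theorem rr_pos (τ : ℝ) : 0 < rr τ := by
  unfold rr; positivity

theorem rr_le_one (τ : ℝ) : rr τ ≤ 1 := by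
  unfold rr
  apply inv_le_one_of_one_le₀
  rw [Real.one_le_sqrt]
  nlinarith [sq_nonneg τ]

theorem rr_mul_abs_le (τ : ℝ) : rr τ * |τ| ≤ 1 := by
  have h1 : |τ| ≤ √(1 + τ ^ 2) := by
    apply Real.le_sqrt_of_sq_le
    rw [sq_abs]; linarith
  unfold rr
  rw [inv_mul_le_iff₀ (by positivity)]
  linarith

theorem measurable_rr : Measurable rr := by
  unfold rr
  fun_prop

theorem norm_ins_mul {n : ℕ} (z : E (n + 1)) (τ : ℝ) :
    ‖ins (‖z‖ * τ) z‖ = ‖z‖ * √(1 + τ ^ 2) := by
  have h := norm_ins_sq (‖z‖ * τ) z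
  have h2 : (‖z‖ * √(1 + τ ^ 2)) ^ 2 = (‖z‖ * τ) ^ 2 + ‖z‖ ^ 2 := by
    rw [mul_pow, Real.sq_sqrt (by positivity)]; ring
  exact (pow_left_inj₀ (norm_nonneg _) (by positivity) two_ne_zero).mp (h.trans h2.symm)

theorem slice (n : ℕ) {G : E (n + 2) → ℝ≥0∞} (hG : Measurable G) :
    ∫⁻ x in closedBall (0 : E (n + 2)) 1, G (‖x‖⁻¹ • x)
      ≤ ∫⁻ τ : ℝ, ENNReal.ofReal (rr τ ^ (n + 2)) *
        ∫⁻ u in closedBall (0 : E (n + 1)) 1, G (rr τ • ins τ (‖u‖⁻¹ • u)) := by
  have hm1 : Measurable (fun x : E (n + 2) => G (‖x‖⁻¹ • x)) := hG.comp measurable_dir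
  set H : E (n + 2) → ℝ≥0∞ := (closedBall (0 : E (n + 2)) 1).indicator
    (fun x => G (‖x‖⁻¹ • x)) with hH
  have hHm : Measurable H := hm1.indicator isClosed_closedBall.measurableSet
  rw [← lintegral_indicator isClosed_closedBall.measurableSet, lintegral_ins hHm,
    lintegral_lintegral_swap (f := fun (y : ℝ) (z : E (n + 1)) => H (ins y z))
      (hHm.comp measurable_ins).aemeasurable]
  have hmq : Measurable (fun q : E (n + 1) × ℝ =>
      ENNReal.ofReal ‖q.1‖ * H (ins (‖q.1‖ * q.2) q.1)) := by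
    apply Measurable.mul
    · exact ENNReal.measurable_ofReal.comp (by fun_prop)
    · exact hHm.comp (measurable_ins.comp ((by fun_prop : Measurable
        (fun q : E (n + 1) × ℝ => ‖q.1‖ * q.2)).prodMk measurable_fst))
  have hne : ∀ᵐ z : E (n + 1), z ≠ 0 := by
    rw [ae_iff]
    simp
  calc ∫⁻ z : E (n + 1), ∫⁻ y : ℝ, H (ins y z)
      ≤ ∫⁻ z : E (n + 1), ∫⁻ τ : ℝ, ENNReal.ofReal ‖z‖ * H (ins (‖z‖ * τ) z) := by
        apply lintegral_mono_ae
        filter_upwards [hne] with z hz
        have hz0 : 0 < ‖z‖ := norm_pos_iff.2 hz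
        have hm2 : Measurable (fun y : ℝ => H (ins y z)) :=
          hHm.comp (measurable_ins.comp (measurable_id.prodMk measurable_const))
        have h1 := lintegral_comp_mul hm2 hz0.ne'
        rw [lintegral_const_mul' _ _ ENNReal.ofReal_ne_top, h1, ← mul_assoc,
          ← ENNReal.ofReal_mul hz0.le, abs_of_pos (inv_pos.2 hz0), mul_inv_cancel₀ hz0.ne',
          ENNReal.ofReal_one, one_mul]
    _ = ∫⁻ τ : ℝ, ∫⁻ z : E (n + 1), ENNReal.ofReal ‖z‖ * H (ins (‖z‖ * τ) z) :=
        lintegral_lintegral_swap (f := fun (z : E (n + 1)) (τ : ℝ) =>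
          ENNReal.ofReal ‖z‖ * H (ins (‖z‖ * τ) z)) hmq.aemeasurable
    _ ≤ _ := by
        apply lintegral_mono
        intro τ
        have hr := rr_pos τ
        have hs : 0 < √(1 + τ ^ 2) := by positivity
        have hrs : rr τ * √(1 + τ ^ 2) = 1 := by
          unfold rr
          exact inv_mul_cancel₀ hs.ne'
        set f : E (n + 1) → ℝ≥0∞ := fun z => ENNReal.ofReal ‖z‖ * H (ins (‖z‖ * τ) z) with hf
        have hfm : Measurable f := by
          apply Measurable.mul
          · exact ENNReal.measurable_ofReal.comp measurable_norm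
          · exact hHm.comp (measurable_ins.comp ((by fun_prop : Measurable
              (fun q : E (n + 1) => ‖q‖ * τ)).prodMk measurable_id))
        have h1 := lintegral_comp_smulV hfm hr.ne'
        have hdim : Module.finrank ℝ (E (n + 1)) = n + 1 := by simp
        rw [hdim, abs_of_pos (by positivity)] at h1
        have h2 : ∫⁻ z, f z = ENNReal.ofReal (rr τ ^ (n + 1)) * ∫⁻ z, f (rr τ • z) := by
          rw [h1, ← mul_assoc, ← ENNReal.ofReal_mul (by positivity),
            mul_inv_cancel₀ (by positivity), ENNReal.ofReal_one, one_mul]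
        have hne' : ∀ᵐ u : E (n + 1), u ≠ 0 := hne
        have h3 : ∫⁻ u, f (rr τ • u) ≤ ENNReal.ofReal (rr τ) *
            ∫⁻ u in closedBall (0 : E (n + 1)) 1, G (rr τ • ins τ (‖u‖⁻¹ • u)) := by
          rw [← lintegral_indicator isClosed_closedBall.measurableSet,
            ← lintegral_const_mul' _ _ ENNReal.ofReal_ne_top]
          apply lintegral_mono_ae
          filter_upwards [hne'] with u hu
          have hu0 : 0 < ‖u‖ := norm_pos_iff.2 hu
          have hnu : ‖rr τ • u‖ = rr τ * ‖u‖ := by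
            rw [norm_smul, Real.norm_of_nonneg hr.le]
          have hni := norm_ins_mul (rr τ • u) τ
          have hni2 : ‖ins (‖rr τ • u‖ * τ) (rr τ • u)‖ = ‖u‖ := by
            rw [hni, hnu]
            calc rr τ * ‖u‖ * √(1 + τ ^ 2) = (rr τ * √(1 + τ ^ 2)) * ‖u‖ := by ring
              _ = ‖u‖ := by rw [hrs, one_mul]
          by_cases hb : u ∈ closedBall (0 : E (n + 1)) 1
          · have hb' : ‖u‖ ≤ 1 := by simpa using hb
            have hmem : ins (‖rr τ • u‖ * τ) (rr τ • u) ∈ closedBall (0 : E (n + 2)) 1 := by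
              rw [mem_closedBall_zero_iff, hni2]; exact hb'
            rw [indicator_of_mem hb, hf]
            simp only
            rw [hH, indicator_of_mem hmem, hni2, hnu]
            have hdir : ‖u‖⁻¹ • ins (rr τ * ‖u‖ * τ) (rr τ • u)
                = rr τ • ins τ (‖u‖⁻¹ • u) := by
              rw [← ins_smul, ← ins_smul]
              congr 1
              · field_simp
              · rw [smul_smul, smul_smul, mul_comm]
            rw [hdir]
            gcongr
            calc rr τ * ‖u‖ ≤ rr τ * 1 := by gcongr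
              _ = rr τ := mul_one _
          · have hmem : ins (‖rr τ • u‖ * τ) (rr τ • u) ∉ closedBall (0 : E (n + 2)) 1 := by
              rw [mem_closedBall_zero_iff, hni2]
              simpa using hb
            rw [hf]
            simp only
            rw [hH, indicator_of_notMem hmem, mul_zero]
            exact zero_le
        change ∫⁻ z, f z ≤ _
        rw [h2]
        calc ENNReal.ofReal (rr τ ^ (n + 1)) * ∫⁻ z, f (rr τ • z)
            ≤ ENNReal.ofReal (rr τ ^ (n + 1)) * (ENNReal.ofReal (rr τ) *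
            ∫⁻ u in closedBall (0 : E (n + 1)) 1, G (rr τ • ins τ (‖u‖⁻¹ • u))) := by gcongr
          _ = _ := by
            rw [← mul_assoc, ← ENNReal.ofReal_mul (by positivity), ← pow_succ]

end Pool.Agent.W767.Sd
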