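import Pool.Agent.H742R2.Kk.Planar
import Pool.Agent.W767.Sd.Slice

set_option autoImplicit false

/-!
# The integral over the slope
-/

open MeasureTheory Set Filter Topology ENNReal NNReal Metric

namespace Pool.Agent.W767.Sd

open Pool.Agent.H742R2.Kk Pool.Agent.W767.Kc

theorem tail_int {M : ℝ} (hM : 0 < M) :
    ∫⁻ τ in Ioi M, ENNReal.ofReal (1 / τ ^ 2) = ENNReal.ofReal (1 / M) := by
  have h1 := integral_Ioi_rpow_of_lt (a := -2) (by norm_num) hM
  have h2 := integrableOn_Ioi_rpow_of_lt (a := -2) (by norm_num) hM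
  have h3 : ∫⁻ τ in Ioi M, ENNReal.ofReal (1 / τ ^ 2) =
      ∫⁻ τ in Ioi M, ENNReal.ofReal (τ ^ (-2 : ℝ)) := by
    apply setLIntegral_congr_fun measurableSet_Ioi
    intro τ hτ
    have hτ0 : 0 < τ := hM.trans hτ
    simp only
    congr 1
    rw [Real.rpow_neg hτ0.le, one_div]
    norm_num
  rw [h3, ← ofReal_integral_eq_lintegral_ofReal h2
    ((ae_restrict_iff' measurableSet_Ioi).2 (Filter.Eventually.of_forall fun τ hτ =>
      Real.rpow_nonneg (hM.trans hτ).le _)), h1]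
  congr 1
  have : (-2 : ℝ) + 1 = -1 := by norm_num
  rw [this, Real.rpow_neg_one]
  ring

theorem tail_int2 {M : ℝ} (hM : 0 < M) :
    ∫⁻ τ in {τ : ℝ | M < |τ|}, ENNReal.ofReal (1 / τ ^ 2) ≤ ENNReal.ofReal (2 / M) := by
  have hsub : {τ : ℝ | M < |τ|} ⊆ Ioi M ∪ Iio (-M) := by
    intro τ hτ
    rcases lt_abs.1 (show M < |τ| from hτ) with h | h
    · exact Or.inl h
    · exact Or.inr (show τ < -M by linarith)
  have hm : Measurable (fun τ : ℝ => ENNReal.ofReal (1 / τ ^ 2)) := by fun_prop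
  have h2 := (Measure.measurePreserving_neg (volume : Measure ℝ)).setLIntegral_comp_preimage
    (measurableSet_Iio (a := -M)) hm
  have hpre : (Neg.neg ⁻¹' Iio (-M) : Set ℝ) = Ioi M := by
    ext x; simp
  rw [hpre] at h2
  simp only [neg_sq] at h2
  calc ∫⁻ τ in {τ : ℝ | M < |τ|}, ENNReal.ofReal (1 / τ ^ 2)
      ≤ ∫⁻ τ in Ioi M ∪ Iio (-M), ENNReal.ofReal (1 / τ ^ 2) := lintegral_mono_set hsub
    _ ≤ (∫⁻ τ in Ioi M, ENNReal.ofReal (1 / τ ^ 2)) +
          ∫⁻ τ in Iio (-M), ENNReal.ofReal (1 / τ ^ 2) :=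
        lintegral_union_le (fun τ : ℝ => ENNReal.ofReal (1 / τ ^ 2)) (Ioi M) (Iio (-M))
    _ = ENNReal.ofReal (1 / M) + ENNReal.ofReal (1 / M) := by rw [← h2, tail_int hM]
    _ = _ := by
        rw [← ENNReal.ofReal_add (by positivity) (by positivity)]
        congr 1; ring

/-- The weight of the direction of slope `τ` for the slab of size `σ`. -/
noncomputable def Kr (m : ℕ) (ρ σ r t : ℝ) : ℝ :=
  (min (1 / r) (σ / ρ)) ^ (m + 2) * min 4 (12 * (σ * r + ρ) / |t|)

theorem Kr_bound (m : ℕ) {ρ σ : ℝ} (hρ : 0 < ρ) (hρσ : ρ ≤ σ) (τ : ℝ) :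
    rr τ ^ (m + 2) * Kr m ρ σ (rr τ) (rr τ * τ) ≤
      if |τ| ≤ σ / ρ then 12 * σ * (4 / (σ + |τ|)) + 12 * ρ else 36 * σ ^ 2 / ρ * (1 / τ ^ 2) := by
  have hσ : 0 < σ := hρ.trans_le hρσ
  have hr := rr_pos τ
  have hr1 := rr_mul_abs_le τ
  have hrτ : |rr τ * τ| = rr τ * |τ| := by rw [abs_mul, abs_of_pos hr]
  rw [Kr, hrτ, ← mul_assoc, ← mul_pow]
  have hinv : 1 / rr τ ≤ 1 + |τ| := by
    unfold rr
    rw [one_div, inv_inv]
    rw [Real.sqrt_le_left (by positivity)]
    nlinarith [abs_nonneg τ, sq_abs τ]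
  set w := rr τ * min (1 / rr τ) (σ / ρ) with hw
  have hw0 : 0 ≤ w := by positivity
  have hw1 : w ≤ 1 := by
    calc w ≤ rr τ * (1 / rr τ) := mul_le_mul_of_nonneg_left (min_le_left _ _) hr.le
      _ = 1 := by field_simp
  have hmin0 : 0 ≤ min 4 (12 * (σ * rr τ + ρ) / (rr τ * |τ|)) := by positivity
  rcases eq_or_ne τ 0 with h0 | h0
  · subst h0
    simp only [abs_zero, mul_zero, _root_.div_zero]
    have e : min (4:ℝ) 0 = 0 := by norm_num
    rw [e, mul_zero]
    split_ifs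
    · positivity
    · positivity
  have hτ : 0 < |τ| := abs_pos.2 h0
  have hmin : min 4 (12 * (σ * rr τ + ρ) / (rr τ * |τ|)) ≤ min 4 (24 * σ / |τ| + 12 * ρ) := by
    apply min_le_min le_rfl
    have e : 12 * (σ * rr τ + ρ) / (rr τ * |τ|) = 12 * σ / |τ| + 12 * ρ / |τ| * (1 / rr τ) := by
      field_simp
    rw [e]
    calc 12 * σ / |τ| + 12 * ρ / |τ| * (1 / rr τ) ≤ 12 * σ / |τ| + 12 * ρ / |τ| * (1 + |τ|) := by
          gcongr
      _ = 12 * (σ + ρ) / |τ| + 12 * ρ := by field_simp; ring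
      _ ≤ 12 * (σ + σ) / |τ| + 12 * ρ := by gcongr
      _ = 24 * σ / |τ| + 12 * ρ := by ring
  split_ifs with hcase
  · calc w ^ (m + 2) * min 4 (12 * (σ * rr τ + ρ) / (rr τ * |τ|))
        ≤ 1 * min 4 (24 * σ / |τ| + 12 * ρ) := by
          gcongr
          exact pow_le_one₀ hw0 hw1
      _ ≤ 12 * σ * (4 / (σ + |τ|)) + 12 * ρ := by
          rw [one_mul]
          rcases le_total |τ| σ with h | h
          · calc min 4 (24 * σ / |τ| + 12 * ρ) ≤ 4 := min_le_left _ _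
              _ ≤ 12 * σ * (4 / (σ + |τ|)) := by
                rw [← mul_div_assoc, le_div_iff₀ (by positivity)]
                nlinarith
              _ ≤ _ := by linarith
          · calc min 4 (24 * σ / |τ| + 12 * ρ) ≤ 24 * σ / |τ| + 12 * ρ := min_le_right _ _
              _ ≤ 12 * σ * (4 / (σ + |τ|)) + 12 * ρ := by
                gcongr
                rw [← mul_div_assoc, div_le_div_iff₀ hτ (by positivity)]
                nlinarith
  · push Not at hcase
    have hw2 : w ≤ σ / (ρ * |τ|) := by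
      calc w ≤ rr τ * (σ / ρ) := mul_le_mul_of_nonneg_left (min_le_right _ _) hr.le
        _ ≤ (1 / |τ|) * (σ / ρ) := by
          gcongr
          rw [le_div_iff₀ hτ]; exact hr1
        _ = σ / (ρ * |τ|) := by field_simp
    have hρτ : σ / |τ| ≤ ρ := by
      rw [div_lt_iff₀ hρ] at hcase
      rw [div_le_iff₀ hτ]
      linarith
    calc w ^ (m + 2) * min 4 (12 * (σ * rr τ + ρ) / (rr τ * |τ|))
        ≤ w ^ 2 * (24 * σ / |τ| + 12 * ρ) := by
          apply mul_le_mul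
          · exact pow_le_pow_of_le_one hw0 hw1 (by omega)
          · exact hmin.trans (min_le_right _ _)
          · exact hmin0
          · positivity
      _ ≤ (σ / (ρ * |τ|)) ^ 2 * (24 * ρ + 12 * ρ) := by
          gcongr
          rw [mul_div_assoc]
          gcongr
      _ = 36 * σ ^ 2 / ρ * (1 / τ ^ 2) := by
          rw [← sq_abs τ]
          field_simp
          ring

theorem measurable_Kr (m : ℕ) (ρ σ : ℝ) : Measurable (fun x : ℝ × ℝ => Kr m ρ σ x.1 x.2) := by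
  unfold Kr
  apply Measurable.mul
  · apply Measurable.pow_const
    exact (by fun_prop : Measurable (fun x : ℝ × ℝ => 1 / x.1)).min measurable_const
  · apply Measurable.min measurable_const
    have h1 : Measurable (fun x : ℝ × ℝ => 12 * (σ * x.1 + ρ)) := by fun_prop
    have h2 : Measurable (fun x : ℝ × ℝ => |x.2|) := by fun_prop
    exact h1.div h2

theorem Kr_nonneg (m : ℕ) {ρ σ r t : ℝ} (hρ : 0 < ρ) (hσ : 0 ≤ σ) (hr : 0 ≤ r) :
    0 ≤ Kr m ρ σ r t := by
  unfold Kr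
  positivity

theorem tau_int (m : ℕ) {ρ σ : ℝ} (hρ : 0 < ρ) (hρ1 : ρ ≤ 1) (hρσ : ρ ≤ σ) :
    ∫⁻ τ : ℝ, ENNReal.ofReal (rr τ ^ (m + 2)) * ENNReal.ofReal (Kr m ρ σ (rr τ) (rr τ * τ))
      ≤ ENNReal.ofReal (200 * σ * (1 + Real.log (1 / ρ))) := by
  have hσ : 0 < σ := hρ.trans_le hρσ
  have hM : 0 < σ / ρ := by positivity
  have hlog : 0 ≤ Real.log (1 / ρ) := Real.log_nonneg (by rw [le_div_iff₀ hρ]; linarith)
  set S : Set ℝ := Icc (-(σ / ρ)) (σ / ρ) with hS
  have hcompl : Sᶜ = {τ : ℝ | σ / ρ < |τ|} := by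
    ext τ
    rw [hS, mem_compl_iff, mem_Icc, ← abs_le, not_le]
    rfl
  have hpt : ∀ τ : ℝ, ENNReal.ofReal (rr τ ^ (m + 2)) *
      ENNReal.ofReal (Kr m ρ σ (rr τ) (rr τ * τ)) ≤
      ENNReal.ofReal (if |τ| ≤ σ / ρ then 12 * σ * (4 / (σ + |τ|)) + 12 * ρ
        else 36 * σ ^ 2 / ρ * (1 / τ ^ 2)) := by
    intro τ
    rw [← ENNReal.ofReal_mul (by have := rr_pos τ; positivity)]
    exact ENNReal.ofReal_le_ofReal (Kr_bound m hρ hρσ τ)
  refine (lintegral_mono hpt).trans ?_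
  rw [← lintegral_add_compl _ (measurableSet_Icc : MeasurableSet S), hcompl]
  have h1 : ∫⁻ τ in S, ENNReal.ofReal (if |τ| ≤ σ / ρ then 12 * σ * (4 / (σ + |τ|)) + 12 * ρ
        else 36 * σ ^ 2 / ρ * (1 / τ ^ 2)) ≤ ENNReal.ofReal (96 * σ * (1 + Real.log (1 / ρ)) + 24 * σ) := by
    have e : ∫⁻ τ in S, ENNReal.ofReal (if |τ| ≤ σ / ρ then 12 * σ * (4 / (σ + |τ|)) + 12 * ρ
        else 36 * σ ^ 2 / ρ * (1 / τ ^ 2)) =
        ∫⁻ τ in S, (ENNReal.ofReal (12 * σ) * ENNReal.ofReal (4 / (σ + |τ|)) +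
          ENNReal.ofReal (12 * ρ)) := by
      apply setLIntegral_congr_fun measurableSet_Icc
      intro τ hτ
      have : |τ| ≤ σ / ρ := abs_le.2 hτ
      simp only
      rw [if_pos this, ENNReal.ofReal_add (by positivity) (by positivity),
        ENNReal.ofReal_mul (by positivity)]
    rw [e, lintegral_add_right _ measurable_const, lintegral_const_mul' _ _ ENNReal.ofReal_ne_top,
      lintegral_const, Measure.restrict_apply_univ, hS, Real.volume_Icc]
    have h2 := PlAux.log_int σ (σ / ρ) hσ hM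
    calc ENNReal.ofReal (12 * σ) * (∫⁻ u in Icc (-(σ / ρ)) (σ / ρ), ENNReal.ofReal (4 / (σ + |u|)))
          + ENNReal.ofReal (12 * ρ) * ENNReal.ofReal (σ / ρ - -(σ / ρ))
        ≤ ENNReal.ofReal (12 * σ) * ENNReal.ofReal (8 * Real.log ((σ + σ / ρ) / σ))
          + ENNReal.ofReal (12 * ρ) * ENNReal.ofReal (σ / ρ - -(σ / ρ)) := by gcongr
      _ ≤ ENNReal.ofReal (12 * σ) * ENNReal.ofReal (8 * (1 + Real.log (1 / ρ)))
          + ENNReal.ofReal (12 * ρ) * ENNReal.ofReal (σ / ρ - -(σ / ρ)) := by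
          gcongr
          have e2 : (σ + σ / ρ) / σ = 1 + 1 / ρ := by field_simp
          have h1ρ : 1 ≤ 1 / ρ := by rw [le_div_iff₀ hρ]; linarith
          calc Real.log ((σ + σ / ρ) / σ) ≤ Real.log (2 * (1 / ρ)) := by
                rw [e2]
                apply Real.log_le_log (by positivity)
                linarith
            _ = Real.log 2 + Real.log (1 / ρ) := Real.log_mul (by norm_num) (by positivity)
            _ ≤ 1 + Real.log (1 / ρ) := by
                have := Real.log_two_lt_d9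
                linarith
      _ = _ := by
          rw [← ENNReal.ofReal_mul (by positivity), ← ENNReal.ofReal_mul (by positivity),
            ← ENNReal.ofReal_add (by positivity) (by
              have : 0 ≤ σ / ρ - -(σ / ρ) := by linarith
              positivity)]
          congr 1
          field_simp
          ring
  have h2 : ∫⁻ τ in {τ : ℝ | σ / ρ < |τ|}, ENNReal.ofReal (if |τ| ≤ σ / ρ then
      12 * σ * (4 / (σ + |τ|)) + 12 * ρ else 36 * σ ^ 2 / ρ * (1 / τ ^ 2))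
      ≤ ENNReal.ofReal (72 * σ) := by
    have hms : MeasurableSet {τ : ℝ | σ / ρ < |τ|} := by
      rw [← hcompl]; exact measurableSet_Icc.compl
    have e : ∫⁻ τ in {τ : ℝ | σ / ρ < |τ|}, ENNReal.ofReal (if |τ| ≤ σ / ρ then
        12 * σ * (4 / (σ + |τ|)) + 12 * ρ else 36 * σ ^ 2 / ρ * (1 / τ ^ 2)) =
        ∫⁻ τ in {τ : ℝ | σ / ρ < |τ|}, ENNReal.ofReal (36 * σ ^ 2 / ρ) *
          ENNReal.ofReal (1 / τ ^ 2) := by
      apply setLIntegral_congr_fun hms
      intro τ hτ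
      have : ¬ |τ| ≤ σ / ρ := not_le.2 hτ
      simp only
      rw [if_neg this, ENNReal.ofReal_mul (by positivity)]
    rw [e, lintegral_const_mul' _ _ ENNReal.ofReal_ne_top]
    calc ENNReal.ofReal (36 * σ ^ 2 / ρ) * ∫⁻ τ in {τ : ℝ | σ / ρ < |τ|}, ENNReal.ofReal (1 / τ ^ 2)
        ≤ ENNReal.ofReal (36 * σ ^ 2 / ρ) * ENNReal.ofReal (2 / (σ / ρ)) := by
          gcongr
          exact tail_int2 hM
      _ = ENNReal.ofReal (72 * σ) := by
          rw [← ENNReal.ofReal_mul (by positivity)]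
          congr 1
          field_simp
          ring
  calc _ ≤ ENNReal.ofReal (96 * σ * (1 + Real.log (1 / ρ)) + 24 * σ) + ENNReal.ofReal (72 * σ) :=
        add_le_add h1 h2
    _ ≤ _ := by
        rw [← ENNReal.ofReal_add (by positivity) (by positivity)]
        apply ENNReal.ofReal_le_ofReal
        nlinarith [mul_nonneg hσ.le hlog]

end Pool.Agent.W767.Sd
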