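import Pool.Agent.H742R2.Kk.Fibre
import Pool.Agent.W767.Sd.Tau
import Pool.Agent.W767.Sd.Geo

set_option autoImplicit false

/-!
# One piece of a tube
-/

open MeasureTheory Set Filter Topology ENNReal NNReal Metric

namespace Pool.Agent.W767.Sd

open Pool.Agent.H742R2.Kk Pool.Agent.W767.Kc

/-- The constant of a piece. -/
noncomputable def cS (m : ℕ) : ℝ≥0∞ :=
  8 ^ (m + 2) * 2 ^ (m + 1) * volume (closedBall (0 : E m) 1)

theorem cS_ne_top (m : ℕ) : cS m ≠ ∞ :=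
  ENNReal.mul_ne_top (ENNReal.mul_ne_top (ENNReal.pow_ne_top (by norm_num))
    (ENNReal.pow_ne_top (by norm_num))) measure_closedBall_lt_top.ne

theorem pow_cancel {P : ℝ≥0∞} (h0 : P ≠ 0) (ht : P ≠ ∞) (m : ℕ) :
    ((P ^ (m + 1))⁻¹) ^ (m + 2) * (P ^ (m + 2) * P ^ m * P ^ (m * (m + 1))) = 1 := by
  have e1 : P ^ (m + 2) * P ^ m * P ^ (m * (m + 1)) = (P ^ (m + 1)) ^ (m + 2) := by
    rw [← pow_add, ← pow_add, ← pow_mul]
    congr 1
    ring
  rw [e1, ← mul_pow, ENNReal.inv_mul_cancel (pow_ne_zero _ h0) (ENNReal.pow_ne_top ht), one_pow]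

/-- A cylinder of length `4` is covered by two cylinders of length `2`. -/
theorem cyl_two {n : ℕ} {ρ : ℝ} {e b : E n} (he : ‖e‖ = 1) :
    cyl ρ 2 e b ⊆ cyl ρ 1 e (b + e) ∪ cyl ρ 1 e (b - e) := by
  intro y hy
  obtain ⟨h1, h2⟩ := hy
  have e1 : (inner ℝ (y - (b + e)) e : ℝ) = inner ℝ (y - b) e - 1 := by
    rw [← sub_sub, inner_sub_left, real_inner_self_eq_norm_sq, he]; ring
  have e2 : (inner ℝ (y - (b - e)) e : ℝ) = inner ℝ (y - b) e + 1 := by
    rw [← sub_add, inner_add_left, real_inner_self_eq_norm_sq, he]; ring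
  rw [abs_le] at h1
  rcases le_total 0 (inner ℝ (y - b) e : ℝ) with h | h
  · left
    refine ⟨?_, ?_⟩
    · rw [e1, abs_le]; exact ⟨by linarith, by linarith [h1.2]⟩
    · rw [e1]
      have e3 : y - (b + e) - ((inner ℝ (y - b) e : ℝ) - 1) • e =
          (y - b) - (inner ℝ (y - b) e : ℝ) • e := by
        rw [sub_smul, one_smul]; abel
      rw [e3]; exact h2
  · right
    refine ⟨?_, ?_⟩
    · rw [e2, abs_le]; exact ⟨by linarith [h1.1], by linarith⟩
    · rw [e2]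
      have e3 : y - (b - e) - ((inner ℝ (y - b) e : ℝ) + 1) • e =
          (y - b) - (inner ℝ (y - b) e : ℝ) • e := by
        rw [add_smul, one_smul]; abel
      rw [e3]; exact h2

/-- One piece. -/
theorem piece {m : ℕ} {ρ σ : ℝ} (hρ0 : 0 < ρ) (hρ1 : ρ ≤ 1) (hρσ : ρ ≤ σ)
    {F : E (m + 2) → ℝ≥0∞} (hF : Measurable F) {e b : E (m + 2)} (he : ‖e‖ = 1)
    (he' : tl e ≠ 0) (he0 : e 0 ≠ 0) {R : Set ℝ} (hRm : MeasurableSet R)
    (hR : (∀ x ∈ R, |x| ≤ 2 * σ) ∨ 1 ≤ σ) {g : E (m + 1) → ℝ≥0∞} (hg : Measurable g)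
    (hfib : ∀ z, ∫⁻ x in {x | x ∈ R ∧ ins x z ∈ cyl ρ 1 e b}, F (ins x z) ≤
      ENNReal.ofReal (8 * ρ * min (1 / ‖tl e‖) (σ / ρ)) * g z)
    {M : E (m + 1) → ℝ≥0∞}
    (hM : ∀ c, ((ENNReal.ofReal ρ ^ m)⁻¹ * ∫⁻ y in cyl ρ 1 (‖tl e‖⁻¹ • tl e) c,
      g y ^ (((m:ℝ) + 2) / (m + 1))) ^ (m + 1) ≤ M (‖tl e‖⁻¹ • tl e)) :
    ((ENNReal.ofReal ρ ^ (m + 1))⁻¹ * ∫⁻ y in cyl ρ 1 e b ∩ {y | y 0 ∈ R}, F y) ^ (m + 2) ≤
      cS m * ENNReal.ofReal (Kr m ρ σ ‖tl e‖ (e 0)) * M (‖tl e‖⁻¹ • tl e) := by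
  set T : Set (E (m + 2)) := cyl ρ 1 e b with hT
  have hTm : MeasurableSet T := (isClosed_cyl ρ 1 e b).measurableSet
  have hRm' : MeasurableSet {y : E (m + 2) | y 0 ∈ R} := measurable_apply 0 hRm
  set TR : Set (E (m + 2)) := T ∩ {y | y 0 ∈ R} with hTR
  have hTRm : MeasurableSet TR := hTm.inter hRm'
  rcases TR.eq_empty_or_nonempty with h0 | ⟨x1, hx1⟩
  · rw [h0]
    simp only [Measure.restrict_empty, lintegral_zero_measure, mul_zero]
    rw [zero_pow (by omega)]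
    exact zero_le
  set r := ‖tl e‖ with hr
  have hr0 : 0 < r := norm_pos_iff.2 he'
  have hσ0 : 0 < σ := hρ0.trans_le hρσ
  have ha0 : 0 < |e 0| := abs_pos.2 he0
  set ω : E (m + 1) := r⁻¹ • tl e with hω
  have hω1 : ‖ω‖ = 1 := by
    rw [hω, norm_smul, norm_inv, norm_norm, ← hr, inv_mul_cancel₀ hr0.ne']
  set D : ℝ := 6 * (σ * r + ρ) / |e 0| with hD
  set C : Set (E (m + 1)) := cyl ρ 2 ω (tl b) ∩ {z | |inner ℝ (z - tl x1) ω| ≤ D} with hC
  have hCm : MeasurableSet C := by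
    apply (isClosed_cyl ρ 2 ω (tl b)).measurableSet.inter
    have h2 : Continuous (fun y : E (m + 1) => |inner ℝ (y - tl x1) ω|) := by fun_prop
    exact (isClosed_le h2 continuous_const).measurableSet
  set ℓ : ℝ≥0∞ := ENNReal.ofReal (8 * ρ * min (1 / r) (σ / ρ)) with hℓ
  -- step A
  have hA : ∫⁻ y in TR, F y ≤ ℓ * ∫⁻ z in C, g z := by
    have hfm : Measurable (TR.indicator F) := hF.indicator hTRm
    rw [← lintegral_indicator hTRm, lintegral_ins hfm,
      lintegral_lintegral_swap (f := fun (x : ℝ) (z : E (m + 1)) => TR.indicator F (ins x z))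
        (hfm.comp measurable_ins).aemeasurable, ← lintegral_indicator hCm,
      ← lintegral_const_mul' _ _ ENNReal.ofReal_ne_top]
    apply lintegral_mono
    intro z
    simp only
    have hins : Measurable (fun x : ℝ => ins x z) :=
      measurable_ins.comp (measurable_id.prodMk measurable_const)
    have hsm : MeasurableSet {x : ℝ | x ∈ R ∧ ins x z ∈ T} := hRm.inter (hins hTm)
    have e1 : ∀ x : ℝ, TR.indicator F (ins x z) =
        {x : ℝ | x ∈ R ∧ ins x z ∈ T}.indicator (fun x => F (ins x z)) x := by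
      intro x
      by_cases hx : x ∈ R ∧ ins x z ∈ T
      · have hx' : ins x z ∈ TR := ⟨hx.2, by simpa [ins_apply_zero] using hx.1⟩
        rw [indicator_of_mem hx', indicator_of_mem (by exact hx)]
      · have hx' : ins x z ∉ TR := fun h => hx ⟨by simpa [ins_apply_zero] using h.2, h.1⟩
        rw [indicator_of_notMem hx', indicator_of_notMem (by exact hx)]
    simp_rw [e1]
    rw [lintegral_indicator hsm]
    by_cases hz : z ∈ C
    · rw [indicator_of_mem hz]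
      exact hfib z
    · have hemp : {x : ℝ | x ∈ R ∧ ins x z ∈ T} = ∅ := by
        rw [eq_empty_iff_forall_notMem]
        rintro x ⟨hx1', hx2'⟩
        apply hz
        have h1 := proj_mem hρ1 he he' hx2'
        rw [tl_ins] at h1
        refine ⟨h1, ?_⟩
        have h2 := proj_diff hρ0 hρσ he he' he0 hx2' hx1.1 (by
          rcases hR with hR | hR
          · left
            rw [ins_apply_zero]
            calc |x - x1 0| ≤ |x| + |x1 0| := abs_sub _ _
              _ ≤ 4 * σ := by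
                have h3 := hR x hx1'
                have h4 := hR (x1 0) hx1.2
                linarith
          · exact Or.inr hR)
        rw [tl_ins] at h2
        exact h2
      rw [hemp]
      simp
  -- step B
  have hB : volume C ≤ ENNReal.ofReal (min 4 (12 * (σ * r + ρ) / |e 0|)) *
      (ENNReal.ofReal ρ ^ m * volume (closedBall (0 : E m) 1)) := by
    have hvol : volume (closedBall (0 : E m) ρ) =
        ENNReal.ofReal ρ ^ m * volume (closedBall (0 : E m) 1) := by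
      rw [Measure.addHaar_closedBall' volume (0 : E m) hρ0.le, ENNReal.ofReal_pow hρ0.le]
      simp
    have h4 : volume C ≤ ENNReal.ofReal 4 * volume (closedBall (0 : E m) ρ) := by
      have hsub : C ⊆ {p : E (m + 1) | (inner ℝ (tl b) ω : ℝ) - 2 ≤ inner ℝ p ω ∧
          inner ℝ p ω ≤ (inner ℝ (tl b) ω : ℝ) + 2 ∧
          ‖(p - tl b) - (inner ℝ (p - tl b) ω : ℝ) • ω‖ ≤ ρ} := by
        rintro z ⟨⟨hz1, hz2⟩, _⟩
        rw [inner_sub_left, abs_le] at hz1
        exact ⟨by linarith [hz1.1], by linarith [hz1.2], hz2⟩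
      refine (measure_mono hsub).trans ?_
      rw [volume_piece _ _ _ _ _ hω1]
      apply le_of_eq
      congr 2
      ring
    have hD' : volume C ≤ ENNReal.ofReal (12 * (σ * r + ρ) / |e 0|) *
        volume (closedBall (0 : E m) ρ) := by
      have hsub : C ⊆ {p : E (m + 1) | (inner ℝ (tl x1) ω : ℝ) - D ≤ inner ℝ p ω ∧
          inner ℝ p ω ≤ (inner ℝ (tl x1) ω : ℝ) + D ∧
          ‖(p - tl b) - (inner ℝ (p - tl b) ω : ℝ) • ω‖ ≤ ρ} := by
        rintro z ⟨⟨hz1, hz2⟩, hz3⟩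
        have hz4 : |(inner ℝ (z - tl x1) ω : ℝ)| ≤ D := hz3
        rw [inner_sub_left, abs_le] at hz4
        exact ⟨by linarith [hz4.1], by linarith [hz4.2], hz2⟩
      refine (measure_mono hsub).trans ?_
      rw [volume_piece _ _ _ _ _ hω1]
      apply le_of_eq
      congr 2
      rw [hD]
      ring
    rw [← hvol]
    rcases min_cases (4:ℝ) (12 * (σ * r + ρ) / |e 0|) with h | h
    · rw [h.1]; exact h4
    · rw [h.1]; exact hD'
  -- step D
  set h : E (m + 1) → ℝ≥0∞ := fun z => g z ^ (((m:ℝ) + 2) / (m + 1)) with hh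
  set P : ℝ≥0∞ := ENNReal.ofReal ρ with hP
  have hP0 : P ≠ 0 := by simpa [hP] using hρ0
  have hPt : P ≠ ∞ := ENNReal.ofReal_ne_top
  have hI : (∫⁻ z in cyl ρ 2 ω (tl b), h z) ^ (m + 1) ≤ P ^ (m * (m + 1)) * (2 ^ (m + 1) * M ω) := by
    have h1 : ∫⁻ z in cyl ρ 2 ω (tl b), h z ≤
        (∫⁻ z in cyl ρ 1 ω (tl b + ω), h z) + ∫⁻ z in cyl ρ 1 ω (tl b - ω), h z :=
      (lintegral_mono_set (cyl_two hω1)).trans (lintegral_union_le _ _ _)
    set I1 := ∫⁻ z in cyl ρ 1 ω (tl b + ω), h z with hI1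
    set I2 := ∫⁻ z in cyl ρ 1 ω (tl b - ω), h z with hI2
    have h2 : ∀ I : ℝ≥0∞, I = P ^ m * ((P ^ m)⁻¹ * I) := by
      intro I
      rw [← mul_assoc, ENNReal.mul_inv_cancel (pow_ne_zero _ hP0) (ENNReal.pow_ne_top hPt), one_mul]
    have h3 : I1 ^ (m + 1) ≤ P ^ (m * (m + 1)) * M ω := by
      rw [h2 I1, mul_pow, ← pow_mul]
      gcongr
      exact hM (tl b + ω)
    have h4 : I2 ^ (m + 1) ≤ P ^ (m * (m + 1)) * M ω := by
      rw [h2 I2, mul_pow, ← pow_mul]
      gcongr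
      exact hM (tl b - ω)
    calc (∫⁻ z in cyl ρ 2 ω (tl b), h z) ^ (m + 1) ≤ (I1 + I2) ^ (m + 1) := by gcongr
      _ ≤ (2 * max I1 I2) ^ (m + 1) := by
          gcongr
          rw [two_mul]
          gcongr
          · exact le_max_left _ _
          · exact le_max_right _ _
      _ = 2 ^ (m + 1) * (max I1 I2) ^ (m + 1) := mul_pow _ _ _
      _ ≤ 2 ^ (m + 1) * (P ^ (m * (m + 1)) * M ω) := by
          gcongr
          rcases max_cases I1 I2 with hc | hc
          · rw [hc.1]; exact h3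
          · rw [hc.1]; exact h4
      _ = _ := by ring
  have hK : ENNReal.ofReal (Kr m ρ σ r (e 0)) = ENNReal.ofReal (min (1 / r) (σ / ρ)) ^ (m + 2) *
      ENNReal.ofReal (min 4 (12 * (σ * r + ρ) / |e 0|)) := by
    rw [Kr, ENNReal.ofReal_mul (by positivity), ENNReal.ofReal_pow (by positivity)]
  have hℓ2 : ℓ = 8 * P * ENNReal.ofReal (min (1 / r) (σ / ρ)) := by
    rw [hℓ, ENNReal.ofReal_mul (by positivity), ENNReal.ofReal_mul (by norm_num)]
    simp [hP]
  set μ := ENNReal.ofReal (min (1 / r) (σ / ρ)) with hμ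
  set κ := ENNReal.ofReal (min 4 (12 * (σ * r + ρ) / |e 0|)) with hκ
  set V := volume (closedBall (0 : E m) 1) with hV
  calc ((P ^ (m + 1))⁻¹ * ∫⁻ y in TR, F y) ^ (m + 2)
      ≤ ((P ^ (m + 1))⁻¹ * (ℓ * ∫⁻ z in C, g z)) ^ (m + 2) := by gcongr
    _ = ((P ^ (m + 1))⁻¹) ^ (m + 2) * (ℓ ^ (m + 2) * (∫⁻ z in C, g z) ^ (m + 2)) := by
        rw [mul_pow, mul_pow]
    _ ≤ ((P ^ (m + 1))⁻¹) ^ (m + 2) * (ℓ ^ (m + 2) *
          ((κ * (P ^ m * V)) * (P ^ (m * (m + 1)) * (2 ^ (m + 1) * M ω)))) := by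
        gcongr
        refine (holder_m (volume.restrict C) hg.aemeasurable m).trans ?_
        rw [Measure.restrict_apply_univ]
        gcongr
        refine le_trans ?_ hI
        gcongr
        exact inter_subset_left
    _ = (((P ^ (m + 1))⁻¹) ^ (m + 2) * (P ^ (m + 2) * P ^ m * P ^ (m * (m + 1)))) *
          (8 ^ (m + 2) * 2 ^ (m + 1) * V * (μ ^ (m + 2) * κ) * M ω) := by
        rw [hℓ2]
        ring
    _ = cS m * ENNReal.ofReal (Kr m ρ σ r (e 0)) * M ω := by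
        rw [pow_cancel hP0 hPt, one_mul, hK, cS]

end Pool.Agent.W767.Sd
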