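import Pool.Agent.W767.Kc.Asm1
import Pool.Agent.W767.Sd.Piece

set_option autoImplicit false

/-!
# Solid functions: the induction step
-/

open MeasureTheory Set Filter Topology ENNReal NNReal Metric

namespace Pool.Agent.W767.Sd

open Pool.Agent.H742R2.Kk Pool.Agent.W767.Kc

/-- The maximal estimate for `F`, with a measurable majorant. -/
def PropMax (m : ℕ) (ρ : ℝ) (A : ℝ≥0∞) (F : E (m + 1) → ℝ≥0∞) : Prop :=
  ∃ M : E (m + 1) → ℝ≥0∞, Measurable M ∧
    (∀ e b, ‖e‖ = 1 → ((ENNReal.ofReal ρ ^ m)⁻¹ * ∫⁻ y in cyl ρ 1 e b, F y) ^ (m + 1) ≤ M e) ∧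
    ∫⁻ x in closedBall (0 : E (m + 1)) 1, M (‖x‖⁻¹ • x) ≤ A * ∫⁻ y, F y ^ (m + 1)

/-- `F` is even and nonincreasing in the absolute value of each coordinate but the last two. -/
def SolidE {n : ℕ} (F : E n → ℝ≥0∞) : Prop :=
  ∀ x y : E n, (∀ i : Fin n, i.val + 2 < n → |y i| ≤ |x i|) →
    (∀ i : Fin n, n ≤ i.val + 2 → y i = x i) → F x ≤ F y

/-- The average over a segment in the first coordinate. -/
noncomputable def gA {m : ℕ} (σ : ℝ) (F : E (m + 2) → ℝ≥0∞) (z : E (m + 1)) : ℝ≥0∞ :=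
  ∫⁻ w, F (ins w z) ∂(Fib.unif σ)

theorem measurable_gA {m : ℕ} {σ : ℝ} (hσ : 0 < σ) {F : E (m + 2) → ℝ≥0∞} (hF : Measurable F) :
    Measurable (gA σ F) := by
  have := Fib.unif_prob hσ
  have h1 : Measurable (fun q : E (m + 1) × ℝ => F (ins q.2 q.1)) :=
    hF.comp (measurable_ins.comp (measurable_snd.prodMk measurable_fst))
  exact Measurable.lintegral_prod_right (f := fun (z : E (m + 1)) (w : ℝ) => F (ins w z)) h1

theorem SolidE.gA {m : ℕ} {σ : ℝ} {F : E (m + 2) → ℝ≥0∞} (hF : SolidE F) :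
    SolidE (gA σ F) := by
  intro x y h1 h2
  apply lintegral_mono
  intro w
  apply hF
  · intro i
    refine Fin.cases ?_ (fun j => ?_) i
    · intro _; rw [ins_apply_zero, ins_apply_zero]
    · intro hj
      rw [ins_apply_succ, ins_apply_succ]
      apply h1
      simp only [Fin.val_succ] at hj
      omega
  · intro i
    refine Fin.cases ?_ (fun j => ?_) i
    · intro _; rw [ins_apply_zero, ins_apply_zero]
    · intro hj
      rw [ins_apply_succ, ins_apply_succ]
      apply h2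
      simp only [Fin.val_succ] at hj
      omega

theorem SolidE.le_gA {m : ℕ} (hm : 1 ≤ m) {σ : ℝ} (hσ : 0 < σ) {F : E (m + 2) → ℝ≥0∞}
    (hF : SolidE F) {x : ℝ} (hx : σ ≤ |x|) (z : E (m + 1)) : F (ins x z) ≤ Sd.gA σ F z := by
  have hle : ∀ w ∈ Icc (-σ) σ, F (ins x z) ≤ F (ins w z) := by
    intro w hw
    apply hF
    · intro i
      refine Fin.cases ?_ (fun j => ?_) i
      · intro _
        rw [ins_apply_zero, ins_apply_zero]
        exact (abs_le.2 hw).trans hx
      · intro _; rw [ins_apply_succ, ins_apply_succ]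
    · intro i
      refine Fin.cases ?_ (fun j => ?_) i
      · intro h
        simp only [Fin.val_zero] at h
        omega
      · intro _; rw [ins_apply_succ, ins_apply_succ]
  rw [Sd.gA, Fib.lintegral_unif]
  have h1 : ∫⁻ _ in Icc (-σ) σ, F (ins x z) ≤ ∫⁻ w in Icc (-σ) σ, F (ins w z) :=
    setLIntegral_mono' measurableSet_Icc hle
  rw [lintegral_const, Measure.restrict_apply_univ, Real.volume_Icc] at h1
  have e : σ - -σ = 2 * σ := by ring
  rw [e] at h1
  calc F (ins x z) = (ENNReal.ofReal (2 * σ))⁻¹ * (F (ins x z) * ENNReal.ofReal (2 * σ)) := by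
        rw [mul_comm (F _), ← mul_assoc, ENNReal.inv_mul_cancel (by simpa using hσ)
          ENNReal.ofReal_ne_top, one_mul]
    _ ≤ _ := by gcongr

/-- The power of the average. -/
theorem lintegral_gA_pow {m : ℕ} {σ : ℝ} (hσ : 0 < σ) {F : E (m + 2) → ℝ≥0∞}
    (hF : Measurable F) :
    ∫⁻ z, (gA σ F z ^ (((m:ℝ) + 2) / (m + 1))) ^ (m + 1) ≤
      (ENNReal.ofReal (2 * σ))⁻¹ * ∫⁻ y, F y ^ (m + 2) := by
  have := Fib.unif_prob hσ
  have e0 : ∀ z : E (m + 1), (gA σ F z ^ (((m:ℝ) + 2) / (m + 1))) ^ (m + 1) = gA σ F z ^ (m + 2) := by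
    intro z
    rw [← ENNReal.rpow_natCast, ← ENNReal.rpow_mul, ← ENNReal.rpow_natCast]
    congr 1
    push_cast
    field_simp
  simp_rw [e0]
  have hFp : Measurable (fun y => F y ^ (m + 2)) := hF.pow_const _
  have h1 : Measurable (fun q : ℝ × E (m + 1) => F (ins q.1 q.2) ^ (m + 2)) :=
    hFp.comp measurable_ins
  calc ∫⁻ z, gA σ F z ^ (m + 2) ≤ ∫⁻ z, ∫⁻ w, F (ins w z) ^ (m + 2) ∂(Fib.unif σ) := by
        apply lintegral_mono
        intro z
        have hm2 : Measurable (fun w : ℝ => F (ins w z)) :=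
          hF.comp (measurable_ins.comp (measurable_id.prodMk measurable_const))
        exact Fib.pow_lintegral_le _ (m + 1) hm2.aemeasurable
    _ = ∫⁻ z, (ENNReal.ofReal (2 * σ))⁻¹ * ∫⁻ w in Icc (-σ) σ, F (ins w z) ^ (m + 2) := by
        apply lintegral_congr
        intro z
        rw [Fib.lintegral_unif]
    _ ≤ ∫⁻ z, (ENNReal.ofReal (2 * σ))⁻¹ * ∫⁻ w, F (ins w z) ^ (m + 2) := by
        apply lintegral_mono
        intro z
        simp only
        gcongr
        exact Measure.restrict_le_self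
    _ = (ENNReal.ofReal (2 * σ))⁻¹ * ∫⁻ z, ∫⁻ w, F (ins w z) ^ (m + 2) :=
        lintegral_const_mul' _ _ (ENNReal.inv_ne_top.2 (by simpa using hσ))
    _ = _ := by
        rw [lintegral_ins hFp, lintegral_lintegral_swap
          (f := fun (w : ℝ) (z : E (m + 1)) => F (ins w z) ^ (m + 2)) h1.aemeasurable]

/-- The sizes of the slabs. -/
noncomputable def sig (ρ : ℝ) (i : ℕ) : ℝ := 2 ^ (i - 1) * ρ

/-- The slabs. -/
def slab (ρ : ℝ) (I0 i : ℕ) : Set ℝ :=
  if i = 0 then {x | |x| ≤ ρ} else if i ≤ I0 then {x | sig ρ i < |x| ∧ |x| ≤ 2 * sig ρ i}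
  else {x | sig ρ i < |x|}

theorem measurableSet_slab (ρ : ℝ) (I0 i : ℕ) : MeasurableSet (slab ρ I0 i) := by
  have h0 : Measurable (fun x : ℝ => |x|) := by fun_prop
  unfold slab
  split_ifs
  · exact measurableSet_le h0 measurable_const
  · exact (measurableSet_lt measurable_const h0).inter (measurableSet_le h0 measurable_const)
  · exact measurableSet_lt measurable_const h0

theorem le_sig {ρ : ℝ} (hρ : 0 < ρ) (i : ℕ) : ρ ≤ sig ρ i := by
  unfold sig
  have : (1:ℝ) ≤ 2 ^ (i - 1) := one_le_pow₀ (by norm_num)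
  nlinarith

theorem slab_cover {ρ : ℝ} (I0 : ℕ) (x : ℝ) : ∃ i ∈ Finset.range (I0 + 2), x ∈ slab ρ I0 i := by
  rcases le_or_gt |x| ρ with h | h
  · exact ⟨0, by simp, by simpa [slab] using h⟩
  · -- the largest shell below
    have key : ∀ k : ℕ, (2:ℝ) ^ k * ρ < |x| ∨
        ∃ i, 1 ≤ i ∧ i ≤ k ∧ sig ρ i < |x| ∧ |x| ≤ 2 * sig ρ i := by
      intro k
      induction k with
      | zero => left; simpa using h
      | succ k ih =>
        rcases ih with ih | ⟨i, h1, h2, h3⟩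
        · rcases lt_or_ge ((2:ℝ) ^ (k + 1) * ρ) |x| with h4 | h4
          · exact Or.inl h4
          · right
            refine ⟨k + 1, by omega, le_rfl, ?_, ?_⟩
            · simpa [sig] using ih
            · simp only [sig, Nat.add_sub_cancel]
              rw [pow_succ] at h4
              linarith
        · exact Or.inr ⟨i, h1, by omega, h3⟩
    rcases key I0 with h1 | ⟨i, h1, h2, h3⟩
    · refine ⟨I0 + 1, by simp, ?_⟩
      have e : slab ρ I0 (I0 + 1) = {x | sig ρ (I0 + 1) < |x|} := by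
        unfold slab
        rw [if_neg (by omega), if_neg (by omega)]
      rw [e]
      simpa [sig] using h1
    · refine ⟨i, by simp; omega, ?_⟩
      have e : slab ρ I0 i = {x | sig ρ i < |x| ∧ |x| ≤ 2 * sig ρ i} := by
        unfold slab
        rw [if_neg (by omega), if_pos h2]
      rw [e]
      exact h3

/-- The fibre integrals. -/
theorem fib_bound {m : ℕ} (hm : 1 ≤ m) {ρ : ℝ} (hρ0 : 0 < ρ) (hρ1 : ρ ≤ 1) {I0 : ℕ}
    (hI0 : 1 ≤ 2 ^ I0 * ρ) {F : E (m + 2) → ℝ≥0∞} (hF : Measurable F) (hS : SolidE F)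
    {e b : E (m + 2)} (he : ‖e‖ = 1) (he' : tl e ≠ 0) {i : ℕ} (hi : i ∈ Finset.range (I0 + 2)) :
    ((∀ x ∈ slab ρ I0 i, |x| ≤ 2 * sig ρ i) ∨ 1 ≤ sig ρ i) ∧
    ∀ z, ∫⁻ x in {x | x ∈ slab ρ I0 i ∧ ins x z ∈ cyl ρ 1 e b}, F (ins x z) ≤
      ENNReal.ofReal (8 * ρ * min (1 / ‖tl e‖) (sig ρ i / ρ)) * gA (sig ρ i) F z := by
  have hi' : i ≤ I0 + 1 := by
    rw [Finset.mem_range] at hi; omega
  have hσ : 0 < sig ρ i := hρ0.trans_le (le_sig hρ0 i)
  have hr0 : 0 < ‖tl e‖ := norm_pos_iff.2 he'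
  have hr1 : ‖tl e‖ ≤ 1 := by rw [← he]; exact norm_tl_le e
  have hR : (∀ x ∈ slab ρ I0 i, |x| ≤ 2 * sig ρ i) ∨ 1 ≤ sig ρ i := by
    rcases Nat.eq_zero_or_pos i with h0 | h0
    · left
      intro x hx
      rw [h0] at hx ⊢
      have h1 : |x| ≤ ρ := by simpa [slab] using hx
      have := le_sig hρ0 0
      linarith
    · rcases Nat.lt_or_ge I0 i with h1 | h1
      · right
        have : i = I0 + 1 := by omega
        rw [this]
        simpa [sig] using hI0
      · left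
        intro x hx
        have e : slab ρ I0 i = {x | sig ρ i < |x| ∧ |x| ≤ 2 * sig ρ i} := by
          unfold slab
          rw [if_neg (by omega), if_pos h1]
        rw [e] at hx
        exact hx.2
  refine ⟨hR, ?_⟩
  intro z
  rcases Nat.eq_zero_or_pos i with h0 | h0
  · -- the core
    have hs : sig ρ i = ρ := by rw [h0]; simp [sig]
    have hsub : {x | x ∈ slab ρ I0 i ∧ ins x z ∈ cyl ρ 1 e b} ⊆ Icc (-ρ) ρ := by
      intro x hx
      have h1 : |x| ≤ ρ := by
        have := hx.1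
        rw [h0] at this
        simpa [slab] using this
      exact abs_le.1 h1
    have h2 : ∫⁻ x in Icc (-ρ) ρ, F (ins x z) = ENNReal.ofReal (2 * ρ) * gA ρ F z := by
      rw [gA, Fib.lintegral_unif, ← mul_assoc, ENNReal.mul_inv_cancel (by simpa using hρ0)
        ENNReal.ofReal_ne_top, one_mul]
    rw [hs]
    calc ∫⁻ x in {x | x ∈ slab ρ I0 i ∧ ins x z ∈ cyl ρ 1 e b}, F (ins x z)
        ≤ ∫⁻ x in Icc (-ρ) ρ, F (ins x z) := lintegral_mono_set hsub
      _ = ENNReal.ofReal (2 * ρ) * gA ρ F z := h2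
      _ ≤ _ := by
        refine mul_le_mul' (ENNReal.ofReal_le_ofReal ?_) le_rfl
        have h3 : 1 ≤ min (1 / ‖tl e‖) (ρ / ρ) := by
          apply le_min
          · rw [le_div_iff₀ hr0]; linarith
          · rw [div_self hρ0.ne']
        nlinarith
  · have hlt : ∀ x ∈ slab ρ I0 i, sig ρ i ≤ |x| := by
      intro x hx
      unfold slab at hx
      rw [if_neg (by omega)] at hx
      split_ifs at hx
      · exact hx.1.le
      · exact (show sig ρ i < |x| from hx).le
    have hins : Measurable (fun x : ℝ => ins x z) :=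
      measurable_ins.comp (measurable_id.prodMk measurable_const)
    have hsm : MeasurableSet {x | x ∈ slab ρ I0 i ∧ ins x z ∈ cyl ρ 1 e b} :=
      (measurableSet_slab ρ I0 i).inter (hins (isClosed_cyl ρ 1 e b).measurableSet)
    calc ∫⁻ x in {x | x ∈ slab ρ I0 i ∧ ins x z ∈ cyl ρ 1 e b}, F (ins x z)
        ≤ ∫⁻ _ in {x | x ∈ slab ρ I0 i ∧ ins x z ∈ cyl ρ 1 e b}, gA (sig ρ i) F z :=
          setLIntegral_mono' hsm (fun x hx => hS.le_gA hm hσ (hlt x hx.1) z)
      _ = gA (sig ρ i) F z * volume {x | x ∈ slab ρ I0 i ∧ ins x z ∈ cyl ρ 1 e b} := by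
          rw [lintegral_const, Measure.restrict_apply_univ]
      _ ≤ gA (sig ρ i) F z * ENNReal.ofReal (8 * ρ * min (1 / ‖tl e‖) (sig ρ i / ρ)) := by
          gcongr
          exact volume_fibre hρ0 hρ1 hσ he he' hR z
      _ = _ := mul_comm _ _

end Pool.Agent.W767.Sd
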